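import Pool.Agent.T9h48.SC.Core

/-!
# Asymptotics
-/

open Finset Filter

set_option autoImplicit false

namespace Pool.Agent.T9h48.SC

lemma choose_ge (q a : ℕ) (ha : a + 3 ≤ q) :
    2 ^ (q - 1 - a) ≤ 2 * q * q.choose ((q + 1 + a) / 2) := by
  set τ := (q + 1 + a) / 2 with hτ
  have hτq : τ < q := by omega
  have h1 : q.choose τ = q.choose (q - τ) := (Nat.choose_symm hτq.le).symm
  have h2 : Nat.centralBinom (q - τ) ≤ q.choose (q - τ) := by
    rw [Nat.centralBinom_eq_two_mul_choose]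
    exact Nat.choose_le_choose _ (by omega)
  have h3 := Nat.four_pow_le_two_mul_self_mul_centralBinom (q - τ) (by omega)
  have h4 : 2 ^ (q - 1 - a) ≤ 4 ^ (q - τ) := by
    have : (4 : ℕ) = 2 ^ 2 := by norm_num
    rw [this, ← pow_mul]
    exact Nat.pow_le_pow_right (by norm_num) (by omega)
  rw [h1]
  calc 2 ^ (q - 1 - a) ≤ 4 ^ (q - τ) := h4
    _ ≤ 2 * (q - τ) * Nat.centralBinom (q - τ) := h3
    _ ≤ 2 * q * q.choose (q - τ) := Nat.mul_le_mul (by omega) h2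

/-- polynomial factors do not matter -/
lemma eventually_poly_lt {r A : ℝ} (hr : 1 < r) (c : ℕ) :
    ∀ᶠ q : ℕ in atTop, A * ((q : ℝ) + 1) ^ c < r ^ q := by
  have h1 := tendsto_pow_const_div_const_pow_of_one_lt c hr
  have h2 : Tendsto (fun q : ℕ => |A| * 2 ^ c * ((q : ℝ) ^ c / r ^ q)) atTop (nhds (|A| * 2 ^ c * 0)) :=
    h1.const_mul _
  rw [mul_zero] at h2
  have h3 := h2.eventually (gt_mem_nhds (show (0 : ℝ) < 1 by norm_num))
  filter_upwards [h3, eventually_ge_atTop 1] with q hq hq1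
  have hr0 : 0 < r ^ q := by positivity
  have hq1' : (1 : ℝ) ≤ q := by exact_mod_cast hq1
  have h4 : |A| * 2 ^ c * ((q : ℝ) ^ c / r ^ q) * r ^ q = |A| * (2 * (q : ℝ)) ^ c := by
    rw [mul_pow]; field_simp
  have h5 : |A| * (2 * (q : ℝ)) ^ c < r ^ q := by
    rw [← h4]
    calc _ < 1 * r ^ q := mul_lt_mul_of_pos_right hq hr0
      _ = r ^ q := one_mul _
  refine lt_of_le_of_lt ?_ h5
  calc A * ((q : ℝ) + 1) ^ c ≤ |A| * ((q : ℝ) + 1) ^ c :=
        mul_le_mul_of_nonneg_right (le_abs_self A) (by positivity)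
    _ ≤ |A| * (2 * (q : ℝ)) ^ c :=
        mul_le_mul_of_nonneg_left (pow_le_pow_left₀ (by positivity) (by linarith) _) (abs_nonneg _)

/-- the main estimate -/
lemma exists_params {γ : ℝ} (h1 : 1 ≤ γ) (h2 : γ < 2) :
    ∃ m K : ℕ, 2 ≤ m ∧ 1 ≤ K ∧ ∀ᶠ q : ℕ in atTop,
      γ ^ q * ((K : ℝ) + 2) ^ q ≤
        (q.choose ((q + 1 + (q + 1) / m) / 2) : ℝ) * (K : ℝ) ^ (q - (1 + (q + 1) / m)) := by
  obtain ⟨K, hK⟩ := exists_nat_gt (2 * γ / (2 - γ))
  have h2γ : 0 < 2 - γ := by linarith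
  have hK0 : (0 : ℝ) < K := lt_of_le_of_lt (by positivity) hK
  have hK1 : 1 ≤ K := by
    have : 0 < K := by exact_mod_cast hK0
    omega
  have hK2 : γ * (K + 2) < 2 * K := by
    rw [div_lt_iff₀ h2γ] at hK
    nlinarith
  have hpos : 0 < γ * ((K : ℝ) + 2) := by positivity
  -- ζ
  set ζ : ℝ := (1 + 2 * K / (γ * (K + 2))) / 2 with hζ
  have hζ1 : 1 < 2 * K / (γ * (K + 2)) := by rw [lt_div_iff₀ hpos]; linarith
  have hζ2 : 1 < ζ := by rw [hζ]; linarith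
  have hζ3 : ζ < 2 * K / (γ * (K + 2)) := by rw [hζ]; linarith
  have hζ4 : γ * (K + 2) * ζ < 2 * K := by
    rw [lt_div_iff₀ hpos] at hζ3
    linarith
  obtain ⟨m0, hm0⟩ := pow_unbounded_of_one_lt (2 * (K : ℝ)) hζ2
  set m := m0 + 2 with hm
  have hm1 : 2 * (K : ℝ) ≤ ζ ^ m := by
    refine hm0.le.trans (pow_le_pow_right₀ hζ2.le (by omega))
  refine ⟨m, K, by omega, hK1, ?_⟩
  set r : ℝ := 2 * K / (γ * (K + 2) * ζ) with hr
  have hr1 : 1 < r := by rw [hr, lt_div_iff₀ (by positivity)]; linarith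
  filter_upwards [eventually_poly_lt (A := 2 * (2 * (K : ℝ)) * ζ) hr1 1, eventually_ge_atTop 8]
    with q hq hq8
  set a := (q + 1) / m with ha
  have hma : m * a ≤ q + 1 := Nat.mul_div_le _ _
  have ha2 : 2 * a ≤ q + 1 := (Nat.mul_le_mul_right _ (by omega : 2 ≤ m)).trans hma
  have h3 := choose_ge q a (by omega)
  have h3' : (2 : ℝ) ^ (q - 1 - a) ≤ 2 * q * (q.choose ((q + 1 + a) / 2) : ℝ) := by
    exact_mod_cast h3
  have h4 : (2 * (K : ℝ)) ^ (a + 1) ≤ ζ ^ (q + 1) * (2 * K) := by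
    rw [pow_succ]
    refine mul_le_mul_of_nonneg_right ?_ (by positivity)
    calc (2 * (K : ℝ)) ^ a ≤ (ζ ^ m) ^ a := pow_le_pow_left₀ (by positivity) hm1 _
      _ = ζ ^ (m * a) := (pow_mul _ _ _).symm
      _ ≤ ζ ^ (q + 1) := pow_le_pow_right₀ hζ2.le hma
  have hsplit : (2 * (K : ℝ)) ^ q = (2 * K) ^ (q - 1 - a) * (2 * K) ^ (a + 1) := by
    rw [← pow_add]; congr 1; omega
  have hqe : q - (1 + a) = q - 1 - a := by omega
  rw [hqe]
  -- it suffices to multiply by 2 q (2 K)^(a+1)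
  have hq0 : (0 : ℝ) < 2 * q := by
    have : (8 : ℝ) ≤ q := by exact_mod_cast hq8
    linarith
  have hfac : (0 : ℝ) < 2 * q * (2 * K) ^ (a + 1) := by positivity
  have h5 : γ ^ q * ((K : ℝ) + 2) ^ q * (2 * q * (2 * K) ^ (a + 1)) ≤ (2 * K) ^ q := by
    have e1 : γ ^ q * ((K : ℝ) + 2) ^ q * (2 * q * (2 * K) ^ (a + 1)) ≤
        γ ^ q * ((K : ℝ) + 2) ^ q * (2 * q * (ζ ^ (q + 1) * (2 * K))) :=
      mul_le_mul_of_nonneg_left (mul_le_mul_of_nonneg_left h4 hq0.le) (by positivity)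
    refine e1.trans ?_
    have e2 : γ ^ q * ((K : ℝ) + 2) ^ q * (2 * q * (ζ ^ (q + 1) * (2 * K))) =
        (2 * (2 * K) * ζ * q) * (γ * (K + 2) * ζ) ^ q := by
      rw [mul_pow, mul_pow, pow_succ]; ring
    rw [e2]
    have e3 : 2 * (2 * (K : ℝ)) * ζ * q ≤ r ^ q := by
      refine le_trans ?_ hq.le
      rw [pow_one]
      have : 0 ≤ 2 * (2 * (K : ℝ)) * ζ := by positivity
      nlinarith
    have e4 : r ^ q * (γ * (K + 2) * ζ) ^ q = (2 * K) ^ q := by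
      rw [← mul_pow, hr, div_mul_cancel₀]
      positivity
    calc _ ≤ r ^ q * (γ * (K + 2) * ζ) ^ q := mul_le_mul_of_nonneg_right e3 (by positivity)
      _ = _ := e4
  have h6 : (2 * (K : ℝ)) ^ q ≤ (q.choose ((q + 1 + a) / 2) : ℝ) * (K : ℝ) ^ (q - 1 - a) *
      (2 * q * (2 * K) ^ (a + 1)) := by
    rw [hsplit, mul_pow 2 (K : ℝ) (q - 1 - a)]
    calc (2 : ℝ) ^ (q - 1 - a) * (K : ℝ) ^ (q - 1 - a) * (2 * K) ^ (a + 1)
        ≤ (2 * q * (q.choose ((q + 1 + a) / 2) : ℝ)) * (K : ℝ) ^ (q - 1 - a) *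
          (2 * K) ^ (a + 1) := by
          refine mul_le_mul_of_nonneg_right (mul_le_mul_of_nonneg_right h3' (by positivity))
            (by positivity)
      _ = _ := by ring
  exact le_of_mul_le_mul_right (h5.trans h6) hfac

/-- for every base below two the power of `γ` wins -/
lemma exists_base {β γ : ℝ} (hβ : 1 ≤ β) (h : β < γ) :
    ∃ t : ℕ, ∀ c : ℕ, ∀ᶠ n : ℕ in atTop, β ^ n * (n : ℝ) ^ c < γ ^ (n / (t + 1) * t) := by
  have hβ0 : 0 < β := by linarith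
  have hr0 : 1 < γ / β := by rw [lt_div_iff₀ hβ0]; linarith
  obtain ⟨t, ht⟩ := pow_unbounded_of_one_lt β hr0
  refine ⟨t, fun c => ?_⟩
  have ht' : β ^ (t + 1) < γ ^ t := by
    rw [div_pow, lt_div_iff₀ (by positivity)] at ht
    rw [pow_succ]; linarith
  set r : ℝ := γ ^ t / β ^ (t + 1) with hr
  have hr1 : 1 < r := by rw [hr, lt_div_iff₀ (by positivity)]; linarith
  have h1 := eventually_poly_lt (A := β ^ (t + 1) * ((t : ℝ) + 1) ^ c) hr1 c
  have h2 : Tendsto (fun n : ℕ => n / (t + 1)) atTop atTop :=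
    Nat.tendsto_div_const_atTop (Nat.succ_ne_zero t)
  filter_upwards [h2.eventually h1] with n hn
  set q := n / (t + 1) with hq
  have hnq : n ≤ (t + 1) * (q + 1) := by
    have := Nat.lt_mul_div_succ n (Nat.succ_pos t)
    exact this.le
  have e1 : β ^ n ≤ β ^ ((t + 1) * (q + 1)) := pow_le_pow_right₀ hβ hnq
  have e2 : (n : ℝ) ^ c ≤ (((t : ℝ) + 1) * ((q : ℝ) + 1)) ^ c := by
    refine pow_le_pow_left₀ (Nat.cast_nonneg _) ?_ _
    exact_mod_cast hnq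
  calc β ^ n * (n : ℝ) ^ c ≤ β ^ ((t + 1) * (q + 1)) * (((t : ℝ) + 1) * ((q : ℝ) + 1)) ^ c :=
        mul_le_mul e1 e2 (by positivity) (by positivity)
    _ = (β ^ (t + 1)) ^ q * (β ^ (t + 1) * ((t : ℝ) + 1) ^ c * ((q : ℝ) + 1) ^ c) := by
        rw [mul_pow, pow_mul, pow_succ (β ^ (t + 1)) q]; ring
    _ < (β ^ (t + 1)) ^ q * r ^ q := mul_lt_mul_of_pos_left hn (by positivity)
    _ = γ ^ (q * t) := by
        rw [← mul_pow, hr, mul_div_cancel₀ _ (by positivity), ← pow_mul, mul_comm t q]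

end Pool.Agent.T9h48.SC
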