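import Pool.Agent.T9h48.SC.Core

/-!
# The grid in `Fin n`
-/

open Finset

set_option autoImplicit false

namespace Pool.Agent.T9h48.SC

/-- the rest -/
def restN (n t q : ℕ) : Finset (Fin n) := univ.filter fun u => (t + 1) * q ≤ (u : ℕ)

lemma gridN_lt {n t q : ℕ} (h : (t + 1) * q ≤ n) (j : Fin (t + 1)) (x : Fin q) :
    (j : ℕ) * q + x < n := by
  have h1 : ((j : ℕ) + 1) * q ≤ (t + 1) * q := Nat.mul_le_mul_right _ (by omega)
  have h2 : (j : ℕ) * q + x < ((j : ℕ) + 1) * q := by
    rw [Nat.add_mul, one_mul]; exact Nat.add_lt_add_left x.2 _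
  omega

/-- the columns -/
def gridN {n t q : ℕ} (h : (t + 1) * q ≤ n) (j : Fin (t + 1)) (x : Fin q) : Fin n :=
  ⟨(j : ℕ) * q + x, gridN_lt h j x⟩

lemma grid_gridN {n t q : ℕ} (h : (t + 1) * q ≤ n) : Grid (gridN h) (restN n t q) := by
  refine ⟨?_, ?_, ?_⟩
  · intro j x j' x' hx
    have h1 : (j : ℕ) * q + x = (j' : ℕ) * q + x' := congrArg Fin.val hx
    have hq : 0 < q := lt_of_le_of_lt (Nat.zero_le _) x.2
    have h2 : ((j : ℕ) * q + x) / q = ((j' : ℕ) * q + x') / q := by rw [h1]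
    have h3 : ((j : ℕ) * q + x) % q = ((j' : ℕ) * q + x') % q := by rw [h1]
    rw [Nat.mul_comm, Nat.mul_comm (j' : ℕ), Nat.mul_add_div hq, Nat.mul_add_div hq,
      Nat.div_eq_of_lt x.2, Nat.div_eq_of_lt x'.2, add_zero, add_zero] at h2
    rw [Nat.mul_comm, Nat.mul_comm (j' : ℕ), Nat.mul_add_mod, Nat.mul_add_mod,
      Nat.mod_eq_of_lt x.2, Nat.mod_eq_of_lt x'.2] at h3
    exact ⟨Fin.ext h2, Fin.ext h3⟩
  · intro j x hx
    unfold restN at hx
    rw [mem_filter] at hx
    have h1 : (t + 1) * q ≤ (j : ℕ) * q + x := hx.2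
    have h2 : ((j : ℕ) + 1) * q ≤ (t + 1) * q := Nat.mul_le_mul_right _ (by omega)
    have h3 : (j : ℕ) * q + x < ((j : ℕ) + 1) * q := by
      rw [Nat.add_mul, one_mul]; exact Nat.add_lt_add_left x.2 _
    omega
  · intro u
    rcases Nat.lt_or_ge (u : ℕ) ((t + 1) * q) with h1 | h1
    · right
      have hq : 0 < q := by
        rcases Nat.eq_zero_or_pos q with h0 | h0
        · rw [h0] at h1; omega
        · exact h0
      refine ⟨⟨u / q, (Nat.div_lt_iff_lt_mul hq).2 h1⟩, ⟨u % q, Nat.mod_lt _ hq⟩, ?_⟩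
      apply Fin.ext
      change (u : ℕ) = u / q * q + u % q
      exact (Nat.div_add_mod' _ _).symm
    · left
      unfold restN
      rw [mem_filter]
      exact ⟨mem_univ _, h1⟩

lemma card_restN_le (n t : ℕ) : (restN n t (n / (t + 1))).card ≤ t + 1 := by
  have h1 : (restN n t (n / (t + 1))).card ≤ (range (t + 1)).card := by
    refine card_le_card_of_injOn (fun u => (u : ℕ) - (t + 1) * (n / (t + 1))) ?_ ?_
    · intro u hu
      rw [mem_coe, restN, mem_filter] at hu
      rw [mem_coe, mem_range]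
      change (u : ℕ) - (t + 1) * (n / (t + 1)) < t + 1
      have h2 := Nat.div_add_mod n (t + 1)
      have h3 : n % (t + 1) < t + 1 := Nat.mod_lt n (Nat.succ_pos t)
      have h4 := u.2
      have h5 := hu.2
      omega
    · intro u hu u' hu' h
      rw [mem_coe, restN, mem_filter] at hu hu'
      apply Fin.ext
      have h5 := hu.2
      have h6 := hu'.2
      simp only at h
      omega
  rwa [card_range] at h1

end Pool.Agent.T9h48.SC
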