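import Mathlib

/-!
# The number of small sets
-/

open Finset

set_option autoImplicit false

namespace Pool.Agent.T9h48.SC

lemma card_small_le (n s : ℕ) :
    Fintype.card {B : Finset (Fin n) // B.card ≤ s} ≤ (n + 1) ^ s := by
  classical
  have h1 : ∀ B : {B : Finset (Fin n) // B.card ≤ s}, ∃ f : Fin s → Option (Fin n),
      ∀ x, x ∈ B.1 ↔ ∃ i, f i = some x := by
    intro B
    refine ⟨fun i => if h : (i : ℕ) < B.1.card then some (B.1.equivFin.symm ⟨i, h⟩).1 else none,
      fun x => ?_⟩
    constructor
    · intro hx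
      refine ⟨⟨B.1.equivFin ⟨x, hx⟩, lt_of_lt_of_le (B.1.equivFin ⟨x, hx⟩).2 B.2⟩, ?_⟩
      simp
    · rintro ⟨i, hi⟩
      simp only at hi
      split_ifs at hi with h
      rw [Option.some.injEq] at hi
      rw [← hi]
      exact (B.1.equivFin.symm ⟨i, h⟩).2
  choose f hf using h1
  have h2 : Function.Injective f := by
    intro B B' h
    apply Subtype.ext
    ext x
    rw [hf, hf, h]
  have h3 := Fintype.card_le_of_injective f h2
  rw [Fintype.card_fun, Fintype.card_option, Fintype.card_fin, Fintype.card_fin] at h3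
  exact h3

end Pool.Agent.T9h48.SC
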