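import Pool.Agent.T9h48.SC.Deriv
import Pool.Agent.T9h48.SC.GridN
import Pool.Agent.T9h48.SC.Asymp

/-!
# Depth-three circuits for the set cover polynomials
-/

open Finset MvPolynomial

set_option autoImplicit false

namespace Pool.Agent.T9h48.SC

/-- subsets of size `h` -/
abbrev Sub (q h : ℕ) : Type := {S : Finset (Fin q) // S.card = h}

lemma card_lt_filter {q h : ℕ} (hq : h ≤ q) :
    (univ.filter fun i : Fin q => (i : ℕ) < h).card = h := by
  rcases Nat.lt_or_ge h q with h2 | h2
  · have h3 : (univ.filter fun i : Fin q => (i : ℕ) < h) = Finset.Iio ⟨h, h2⟩ := by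
      ext i
      simp [Fin.lt_def]
    rw [h3, Fin.card_Iio]
  · have : h = q := le_antisymm hq h2
    subst this
    rw [filter_true_of_mem fun i _ => i.2, card_univ, Fintype.card_fin]

lemma exists_perm {q h : ℕ} (hq : h ≤ q) (S : Sub q h) :
    ∃ π : Equiv.Perm (Fin q), ∀ i : Fin q, π i ∈ S.1 ↔ (i : ℕ) < h := by
  classical
  obtain ⟨π, hπ⟩ := Equiv.Perm.exists_map_finset_eq (univ.filter fun i : Fin q => (i : ℕ) < h) S.1
    (by rw [card_lt_filter hq, S.2])
  refine ⟨π, fun i => ?_⟩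
  rw [← hπ, mem_map]
  constructor
  · rintro ⟨j, hj, hij⟩
    have : j = i := π.injective hij
    rw [← this]
    exact (mem_filter.1 hj).2
  · intro hi
    exact ⟨i, mem_filter.2 ⟨mem_univ _, hi⟩, rfl⟩

section

variable {n t q : ℕ} {e : Fin (t + 1) → Fin q → Fin n} {L : Finset (Fin n)}

/-- transversals -/
def tr (e : Fin (t + 1) → Fin q → Fin n) (p : Fin (t + 1) → Equiv.Perm (Fin q)) (i : Fin q) :
    Finset (Fin n) := univ.image fun c => e c (p c i)

lemma Grid.mem_tr (hg : Grid e L) (p : Fin (t + 1) → Equiv.Perm (Fin q)) (i : Fin q)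
    (c : Fin (t + 1)) (x : Fin q) : e c x ∈ tr e p i ↔ p c i = x := by
  unfold tr
  rw [mem_image]
  constructor
  · rintro ⟨j', _, h1⟩
    obtain ⟨h2, h3⟩ := hg.inj _ _ _ _ h1
    subst h2
    exact h3
  · intro h1
    exact ⟨c, mem_univ _, by rw [h1]⟩

lemma Grid.tr_inj (hg : Grid e L) (p : Fin (t + 1) → Equiv.Perm (Fin q)) :
    Function.Injective (tr e p) := by
  intro i i' hi
  have h1 : e 0 (p 0 i) ∈ tr e p i := (hg.mem_tr p i 0 _).2 rfl
  rw [hi, hg.mem_tr] at h1
  exact ((p 0).injective h1).symm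

lemma card_tr_le (p : Fin (t + 1) → Equiv.Perm (Fin q)) (i : Fin q) :
    (tr e p i).card ≤ t + 1 := card_image_le.trans (by rw [card_univ, Fintype.card_fin])

lemma Grid.tr_ne (hg : Grid e L) (p : Fin (t + 1) → Equiv.Perm (Fin q)) (i : Fin q) :
    tr e p i ≠ L := by
  intro h
  have h1 : e 0 (p 0 i) ∈ tr e p i := (hg.mem_tr p i 0 _).2 rfl
  rw [h] at h1
  exact hg.notMem _ _ h1

/-- the monomial of the rest -/
noncomputable def lam (L : Finset (Fin n)) : Finset (Fin n) →₀ ℕ :=
  if L = ∅ then 0 else Finsupp.single L 1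

lemma degree_lam : (lam L).degree = if L = ∅ then 0 else 1 := by
  unfold lam
  split_ifs
  · simp
  · rw [Finsupp.degree_single]

/-- first half -/
noncomputable def halfA (e : Fin (t + 1) → Fin q → Fin n) (h : ℕ)
    (p : Fin (t + 1) → Equiv.Perm (Fin q)) : Finset (Fin n) →₀ ℕ :=
  ∑ i ∈ univ.filter (fun i : Fin q => (i : ℕ) < h), Finsupp.single (tr e p i) 1

/-- second half and the rest -/
noncomputable def halfB (e : Fin (t + 1) → Fin q → Fin n) (L : Finset (Fin n)) (h : ℕ)
    (p : Fin (t + 1) → Equiv.Perm (Fin q)) : Finset (Fin n) →₀ ℕ :=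
  ∑ i ∈ univ.filter (fun i : Fin q => ¬ (i : ℕ) < h), Finsupp.single (tr e p i) 1 + lam L

/-- the list of the first half -/
noncomputable def lst (e : Fin (t + 1) → Fin q → Fin n) (h : ℕ)
    (p : Fin (t + 1) → Equiv.Perm (Fin q)) : List (Finset (Fin n)) :=
  ((univ.filter fun i : Fin q => (i : ℕ) < h).toList).map (tr e p)

lemma sum_lst (h : ℕ) (p : Fin (t + 1) → Equiv.Perm (Fin q)) :
    ((lst e h p).map fun v => Finsupp.single v 1).sum = halfA e h p := by
  unfold lst halfA
  rw [List.map_map]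
  exact Finset.sum_map_toList _ _

lemma mem_lst {h : ℕ} {p : Fin (t + 1) → Equiv.Perm (Fin q)} {A : Finset (Fin n)} :
    A ∈ lst e h p ↔ ∃ i : Fin q, (i : ℕ) < h ∧ tr e p i = A := by
  unfold lst
  rw [List.mem_map]
  simp

lemma mem_support_A {h : ℕ} {p : Fin (t + 1) → Equiv.Perm (Fin q)} {A : Finset (Fin n)}
    (hA : A ∈ (halfA e h p).support) : ∃ i : Fin q, (i : ℕ) < h ∧ tr e p i = A := by
  classical
  unfold halfA at hA
  have h1 := Finsupp.support_finsetSum hA
  rw [mem_biUnion] at h1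
  obtain ⟨i, hi, hi'⟩ := h1
  have h2 := Finsupp.support_single_subset hi'
  rw [mem_singleton] at h2
  exact ⟨i, (mem_filter.1 hi).2, h2.symm⟩

lemma mem_support_B {h : ℕ} {p : Fin (t + 1) → Equiv.Perm (Fin q)} {A : Finset (Fin n)}
    (hA : A ∈ (halfB e L h p).support) :
    (∃ i : Fin q, ¬ (i : ℕ) < h ∧ tr e p i = A) ∨ A = L := by
  classical
  unfold halfB at hA
  have h0 := Finsupp.support_add hA
  rw [mem_union] at h0
  rcases h0 with h0 | h0
  · have h1 := Finsupp.support_finsetSum h0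
    rw [mem_biUnion] at h1
    obtain ⟨i, hi, hi'⟩ := h1
    have h2 := Finsupp.support_single_subset hi'
    rw [mem_singleton] at h2
    exact Or.inl ⟨i, (mem_filter.1 hi).2, h2.symm⟩
  · right
    unfold lam at h0
    split_ifs at h0
    · simp at h0
    · have h2 := Finsupp.support_single_subset h0
      rwa [mem_singleton] at h2

lemma degree_A {h : ℕ} (hq : h ≤ q) (p : Fin (t + 1) → Equiv.Perm (Fin q)) :
    (halfA e h p).degree = h := by
  unfold halfA
  rw [map_sum]
  simp only [Finsupp.degree_single]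
  rw [sum_const, smul_eq_mul, mul_one, card_lt_filter hq]

lemma degree_B {h : ℕ} (hq : h ≤ q) (p : Fin (t + 1) → Equiv.Perm (Fin q)) :
    (halfB e L h p).degree = (q - h) + if L = ∅ then 0 else 1 := by
  unfold halfB
  rw [map_add, degree_lam, map_sum]
  simp only [Finsupp.degree_single]
  rw [sum_const, smul_eq_mul, mul_one]
  congr 1
  have h1 := card_filter_add_card_filter_not (s := (univ : Finset (Fin q)))
    (fun i : Fin q => (i : ℕ) < h)
  rw [card_univ, Fintype.card_fin, card_lt_filter hq] at h1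
  omega

/-- **The lower bound**, explicit form. -/
theorem depth3_bound (hg : Grid e L) (hL : L.card ≤ t + 1) {k h D r : ℕ}
    (hk : k = q + if L = ∅ then 0 else 1) (hhq : h ≤ q) (hhD : h ≤ D)
    {K : Type*} [Field K] (ℓ : Fin r → Fin D → MvPolynomial (Finset (Fin n)) K)
    (hℓ : ∀ i j, (ℓ i j).totalDegree ≤ 1)
    (hP : ∀ m : Finset (Fin n) →₀ ℕ, m.degree = k → (∀ A ∈ m.support, A.card ≤ t + 1) →
      (coeff m (∑ i, ∏ j, ℓ i j) ≠ 0 ↔ ∀ u, ∃ A ∈ m.support, u ∈ A)) :
    (q.choose h) ^ (t + 1) ≤ r * D.choose h := by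
  classical
  choose π hπ using fun S : Sub q h => exists_perm hhq S
  set p : (Fin (t + 1) → Sub q h) → Fin (t + 1) → Equiv.Perm (Fin q) := fun R c => π (R c) with hp
  have hcard : Fintype.card (Fin (t + 1) → Sub q h) = (q.choose h) ^ (t + 1) := by
    rw [Fintype.card_fun, Fintype.card_fin]
    congr 1
    have := Fintype.card_finset_len (α := Fin q) h
    rw [Fintype.card_fin] at this
    exact this
  rw [← hcard]
  have hdeg : ∀ R R', (halfB e L h (p R') + halfA e h (p R)).degree = k := by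
    intro R R'
    rw [map_add, degree_A hhq, degree_B hhq, hk]
    omega
  have hsmall : ∀ R R', ∀ A ∈ (halfB e L h (p R') + halfA e h (p R)).support,
      A.card ≤ t + 1 := by
    intro R R' A hA
    have h1 := Finsupp.support_add hA
    rw [mem_union] at h1
    rcases h1 with h1 | h1
    · rcases mem_support_B h1 with ⟨i, _, rfl⟩ | rfl
      · exact card_tr_le _ _
      · exact hL
    · obtain ⟨i, _, rfl⟩ := mem_support_A h1
      exact card_tr_le _ _
  have hpos : ∀ (x y : Finset (Fin n) →₀ ℕ) (A : Finset (Fin n)), A ∈ (x + y).support ↔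
      A ∈ x.support ∨ A ∈ y.support := by
    intro x y A
    simp only [Finsupp.mem_support_iff, Finsupp.add_apply]
    omega
  have hsum : ∀ (J : Finset (Fin q)) (f : Fin q → Finset (Fin n)) (i : Fin q), i ∈ J →
      f i ∈ (∑ i ∈ J, Finsupp.single (f i) (1 : ℕ)).support := by
    intro J f i hi
    rw [← add_sum_erase J _ hi, hpos]
    left
    rw [Finsupp.mem_support_iff, Finsupp.single_eq_same]
    exact one_ne_zero
  refine rank_bound ℓ hℓ hhD (fun R => lst e h (p R)) (fun R => halfB e L h (p R)) ?_ ?_ ?_ ?_ ?_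
  · intro R
    unfold lst
    rw [List.length_map, length_toList, card_lt_filter hhq]
  · intro R
    exact (nodup_toList _).map (hg.tr_inj _)
  · intro R A hA
    obtain ⟨i, hi, rfl⟩ := mem_lst.1 hA
    by_contra hcon
    rcases mem_support_B (Finsupp.mem_support_iff.2 hcon) with ⟨j, hj, hij⟩ | hij
    · exact hj (by rw [hg.tr_inj _ hij]; exact hi)
    · exact hg.tr_ne _ _ hij
  · intro R
    rw [sum_lst, hP _ (hdeg R R) (hsmall R R)]
    intro u
    rcases hg.surj u with hu | ⟨c, x, rfl⟩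
    · refine ⟨L, ?_, hu⟩
      rw [hpos]
      left
      unfold halfB
      rw [hpos]
      right
      unfold lam
      rw [if_neg (Finset.ne_empty_of_mem hu), Finsupp.mem_support_iff, Finsupp.single_eq_same]
      exact one_ne_zero
    · set i := (p R c).symm x with hi
      refine ⟨tr e (p R) i, ?_, (hg.mem_tr _ _ _ _).2 (by rw [hi]; simp)⟩
      rw [hpos]
      by_cases hih : (i : ℕ) < h
      · right
        unfold halfA
        exact hsum _ _ i (mem_filter.2 ⟨mem_univ _, hih⟩)
      · left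
        unfold halfB
        rw [hpos]
        left
        exact hsum _ _ i (mem_filter.2 ⟨mem_univ _, hih⟩)
  · intro R R' hRR
    rw [sum_lst]
    by_contra hcon
    have h1 := (hP _ (hdeg R R') (hsmall R R')).1 hcon
    obtain ⟨c, hc⟩ : ∃ c, R c ≠ R' c := by
      by_contra h2
      push Not at h2
      exact hRR (funext h2)
    have h3 : ∃ x, x ∈ (R' c).1 ∧ x ∉ (R c).1 := by
      by_contra h4
      push Not at h4
      have h5 : (R' c).1 = (R c).1 := eq_of_subset_of_card_le h4 (by rw [(R c).2, (R' c).2])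
      exact hc (Subtype.ext h5.symm)
    obtain ⟨x, hx', hx⟩ := h3
    obtain ⟨A, hA, hu⟩ := h1 (e c x)
    rw [hpos] at hA
    rcases hA with hA | hA
    · rcases mem_support_B hA with ⟨i, hi, rfl⟩ | rfl
      · rw [hg.mem_tr] at hu
        apply hi
        rw [← hπ (R' c) i]
        change p R' c i ∈ _
        rw [hu]
        exact hx'
      · exact hg.notMem _ _ hu
    · obtain ⟨i, hi, rfl⟩ := mem_support_A hA
      rw [hg.mem_tr] at hu
      apply hx
      rw [← hu]
      change π (R c) i ∈ _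
      rw [hπ]
      exact hi

end

/-! ### numbers -/

lemma two_pow_le_middle (q : ℕ) : 2 ^ q ≤ (q + 1) * q.choose (q / 2) := by
  rw [← Nat.sum_range_choose q]
  calc ∑ i ∈ range (q + 1), q.choose i ≤ ∑ _i ∈ range (q + 1), q.choose (q / 2) :=
        sum_le_sum fun i _ => Nat.choose_le_middle i q
    _ = _ := by rw [sum_const, card_range, smul_eq_mul]

lemma choose_le_pow {M n t q : ℕ} (hn : n ≤ (t + 1) * (q + 1)) (hq : 3 ≤ q) :
    ((M * n).choose (q / 2) : ℝ) ≤ (12 * M * (t + 1)) ^ q := by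
  set h := q / 2 with hh
  have hh1 : 1 ≤ h := by omega
  have hhr : (0 : ℝ) < h := by exact_mod_cast hh1
  rcases Nat.eq_zero_or_pos M with hM | hM
  · subst hM
    rw [zero_mul, Nat.choose_eq_zero_of_lt (by omega), Nat.cast_zero]
    positivity
  have h1 : ((M * n).choose h : ℝ) ≤ ((M * n : ℕ) : ℝ) ^ h / (h.factorial : ℝ) :=
    Nat.choose_le_pow_div (α := ℝ) h (M * n)
  have h2 : (h : ℝ) ^ h / h.factorial ≤ Real.exp h := Real.pow_div_factorial_le_exp (h : ℝ) hhr.le h
  have h3 : Real.exp h ≤ 3 ^ h := by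
    rw [← Real.exp_one_pow]
    exact pow_le_pow_left₀ (Real.exp_pos _).le
      (Real.exp_one_lt_d9.le.trans (by norm_num)) _
  have h4 : (h : ℝ) ^ h ≤ 3 ^ h * h.factorial := by
    rw [div_le_iff₀ (by positivity)] at h2
    exact h2.trans (mul_le_mul_of_nonneg_right h3 (by positivity))
  have h5 : ((M * n : ℕ) : ℝ) ≤ (4 * M * (t + 1)) * h := by
    have e1 : M * n ≤ (4 * M * (t + 1)) * h := by
      calc M * n ≤ M * ((t + 1) * (q + 1)) := Nat.mul_le_mul_left _ hn
        _ ≤ M * ((t + 1) * (4 * h)) :=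
          Nat.mul_le_mul_left _ (Nat.mul_le_mul_left _ (by omega))
        _ = _ := by ring
    exact_mod_cast e1
  have h6 : ((M * n : ℕ) : ℝ) ^ h / (h.factorial : ℝ) ≤ (12 * M * (t + 1)) ^ h := by
    rw [div_le_iff₀ (by positivity)]
    calc ((M * n : ℕ) : ℝ) ^ h ≤ ((4 * M * (t + 1)) * h) ^ h :=
          pow_le_pow_left₀ (by positivity) h5 _
      _ = (4 * M * (t + 1)) ^ h * (h : ℝ) ^ h := mul_pow _ _ _
      _ ≤ (4 * M * (t + 1)) ^ h * (3 ^ h * h.factorial) :=
          mul_le_mul_of_nonneg_left h4 (by positivity)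
      _ = _ := by
          have : (12 * (M : ℝ) * (t + 1)) = (4 * M * (t + 1)) * 3 := by ring
          rw [this, mul_pow (4 * (M : ℝ) * (t + 1)) 3 h]; ring
  have h7 : (1 : ℝ) ≤ 12 * M * (t + 1) := by
    have : 1 ≤ 12 * M * (t + 1) := by nlinarith
    exact_mod_cast this
  exact h1.trans (h6.trans (pow_le_pow_right₀ h7 (by omega)))

/-- choice of the set size -/
lemma exists_size {β : ℝ} (hβ : 1 ≤ β) (h2 : β < 2) {M : ℕ} (hM : 1 ≤ M) :
    ∃ t : ℕ, 12 * M * (t + 1) * β ^ (t + 1) < 2 ^ (t + 1) := by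
  have hβ0 : 0 < β := by linarith
  have hr : 1 < 2 / β := by rw [lt_div_iff₀ hβ0]; linarith
  have h1 := (eventually_poly_lt (A := 12 * M) hr 1).and (Filter.eventually_ge_atTop 1)
  obtain ⟨N, hN, hN1⟩ := h1.exists
  refine ⟨N - 1, ?_⟩
  have e1 : N - 1 + 1 = N := by omega
  have e2 : ((N - 1 : ℕ) : ℝ) + 1 = N := by
    rw [Nat.cast_sub hN1]; push_cast; ring
  rw [e1, e2]
  rw [div_pow, lt_div_iff₀ (by positivity), pow_one] at hN
  refine lt_of_le_of_lt ?_ hN
  have hM' : (1 : ℝ) ≤ M := by exact_mod_cast hM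
  refine mul_le_mul_of_nonneg_right ?_ (by positivity)
  nlinarith

end Pool.Agent.T9h48.SC
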