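import Pool.Agent.T9h48.SC.Perm

/-!
# The combinatorial core

The ground set is the disjoint union of `t + 1` columns with `q` elements and a rest `L`. A tuple `σ`
of `t` permutations defines a partition `G σ` of the ground set into `q` transversals of the columns
and `L`. If for every `σ` the partition `G σ` is covered by three small families (with few
repetitions) in such a way that families belonging to different `σ` with the same label can be
exchanged, then there are many labels.
-/

open Finset

set_option autoImplicit false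

namespace Pool.Agent.T9h48.SC

variable {U : Type*} [DecidableEq U] {t q : ℕ}

/-- tuples of permutations -/
abbrev Sg (t q : ℕ) : Type := Fin t → Equiv.Perm (Fin q)

/-- the permutations of all columns, the first being the identity -/
def ext (σ : Sg t q) : Fin (t + 1) → Equiv.Perm (Fin q) := Fin.cons 1 σ

/-- the transversals -/
def trv (e : Fin (t + 1) → Fin q → U) (σ : Sg t q) (i : Fin q) : Finset U :=
  univ.image fun j => e j (ext σ j i)

/-- the partition -/
def prt (e : Fin (t + 1) → Fin q → U) (L : Finset U) (σ : Sg t q) : Finset (Finset U) :=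
  insert L (univ.image (trv e σ))

/-- a grid in the ground set, with the rest `L` -/
structure Grid (e : Fin (t + 1) → Fin q → U) (L : Finset U) : Prop where
  inj : ∀ j x j' x', e j x = e j' x' → j = j' ∧ x = x'
  notMem : ∀ j x, e j x ∉ L
  surj : ∀ u, u ∈ L ∨ ∃ j x, u = e j x

variable {e : Fin (t + 1) → Fin q → U} {L : Finset U}

lemma Grid.mem_trv (h : Grid e L) (σ : Sg t q) (i : Fin q) (j : Fin (t + 1)) (x : Fin q) :
    e j x ∈ trv e σ i ↔ ext σ j i = x := by
  unfold trv
  rw [mem_image]
  constructor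
  · rintro ⟨j', _, h1⟩
    obtain ⟨h2, h3⟩ := h.inj _ _ _ _ h1
    subst h2
    exact h3
  · intro h1
    exact ⟨j, mem_univ _, by rw [h1]⟩

lemma Grid.trv_inj (h : Grid e L) (σ : Sg t q) : Function.Injective (trv e σ) := by
  intro i i' hi
  have h1 : e 0 (ext σ 0 i) ∈ trv e σ i := (h.mem_trv σ i 0 _).2 rfl
  rw [hi, h.mem_trv] at h1
  exact ((ext σ 0).injective h1).symm

lemma Grid.eq_trv (h : Grid e L) {σ : Sg t q} {A : Finset U} (hA : A ∈ prt e L σ)
    {j : Fin (t + 1)} {x : Fin q} (hx : e j x ∈ A) : ∃ i, A = trv e σ i ∧ ext σ j i = x := by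
  unfold prt at hA
  rw [mem_insert, mem_image] at hA
  rcases hA with rfl | ⟨i, _, rfl⟩
  · exact absurd hx (h.notMem j x)
  · exact ⟨i, rfl, (h.mem_trv σ i j x).1 hx⟩

lemma Grid.cover (h : Grid e L) (σ : Sg t q) (u : U) : ∃ A ∈ prt e L σ, u ∈ A := by
  rcases h.surj u with h1 | ⟨j, x, rfl⟩
  · exact ⟨L, mem_insert_self _ _, h1⟩
  · refine ⟨trv e σ ((ext σ j).symm x), mem_insert_of_mem (mem_image_of_mem _ (mem_univ _)), ?_⟩
    rw [h.mem_trv]
    simp

lemma card_trv_le (σ : Sg t q) (i : Fin q) : (trv e σ i).card ≤ t + 1 :=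
  card_image_le.trans (by rw [card_univ, Fintype.card_fin])

lemma card_prt_le (σ : Sg t q) : (prt e L σ).card ≤ q + 1 := by
  unfold prt
  refine (card_insert_le _ _).trans (Nat.add_le_add_right ?_ 1)
  exact card_image_le.trans (by rw [card_univ, Fintype.card_fin])

/-- the number of colours of mixed transversals -/
lemma Grid.mixed_le (h : Grid e L) {d : ℕ} (σ : Sg t q)
    (M : Fin 3 → Multiset (Finset U)) (hG : ∀ c, ∀ A ∈ M c, A ∈ prt e L σ)
    (hd : (M 0).card + (M 1).card + (M 2).card ≤ q + d)
    (χ : U → Fin 3) (hχ : ∀ u, ∃ A ∈ M (χ u), u ∈ A) (j j' : Fin (t + 1)) :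
    (univ.filter fun i => χ (e j (ext σ j i)) ≠ χ (e j' (ext σ j' i))).card ≤ d := by
  classical
  set B := univ.filter fun i => χ (e j (ext σ j i)) ≠ χ (e j' (ext σ j' i)) with hB
  set N : Multiset (Finset U) := M 0 + M 1 + M 2 with hN
  have hmem : ∀ j i, trv e σ i ∈ M (χ (e j (ext σ j i))) := by
    intro j i
    obtain ⟨A, hA, hu⟩ := hχ (e j (ext σ j i))
    obtain ⟨i', h1, h2⟩ := h.eq_trv (hG _ A hA) hu
    have : i' = i := (ext σ j).injective h2
    rw [this] at h1
    rw [← h1]
    exact hA
  have hcount : ∀ i, 1 + (if i ∈ B then 1 else 0) ≤ N.count (trv e σ i) := by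
    intro i
    rw [hN, Multiset.count_add, Multiset.count_add]
    have h1 := Multiset.one_le_count_iff_mem.2 (hmem j i)
    have h2 := Multiset.one_le_count_iff_mem.2 (hmem j' i)
    split_ifs with hi
    · rw [hB, mem_filter] at hi
      have h3 := hi.2
      revert h1 h2 h3
      generalize χ (e j (ext σ j i)) = c
      generalize χ (e j' (ext σ j' i)) = c'
      intro h1 h2 h3
      fin_cases c <;> fin_cases c' <;> first | (exact absurd rfl h3) | (simp at h1 h2 ⊢; omega)
    · revert h1
      generalize χ (e j (ext σ j i)) = c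
      intro h1
      fin_cases c <;> (simp at h1 ⊢; omega)
  have h4 : ∑ i : Fin q, (1 + (if i ∈ B then 1 else 0)) ≤ ∑ i : Fin q, N.count (trv e σ i) :=
    sum_le_sum fun i _ => hcount i
  have h5 : ∑ i : Fin q, N.count (trv e σ i) ≤ N.card := by
    have h6 : ∑ i : Fin q, N.count (trv e σ i) = ∑ A ∈ univ.image (trv e σ), N.count A := by
      rw [sum_image fun i _ i' _ hi => h.trv_inj σ hi]
    rw [h6]
    calc ∑ A ∈ univ.image (trv e σ), N.count A
        ≤ ∑ A ∈ univ.image (trv e σ) ∪ N.toFinset, N.count A :=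
          sum_le_sum_of_subset subset_union_left
      _ = N.card := Multiset.sum_count_eq_card fun A hA =>
          mem_union_right _ (Multiset.mem_toFinset.2 hA)
  rw [sum_add_distrib, sum_const, smul_eq_mul, mul_one, card_univ, Fintype.card_fin,
    sum_ite_mem, univ_inter, sum_const, smul_eq_mul, mul_one] at h4
  have h7 : N.card = (M 0).card + (M 1).card + (M 2).card := by
    rw [hN, Multiset.card_add, Multiset.card_add]
  omega

/-- the size of the colour classes -/
lemma Grid.class_le (h : Grid e L) (σ : Sg t q)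
    (M : Fin 3 → Multiset (Finset U)) (hG : ∀ c, ∀ A ∈ M c, A ∈ prt e L σ)
    (χ : U → Fin 3) (hχ : ∀ u, ∃ A ∈ M (χ u), u ∈ A) (j : Fin (t + 1)) (c : Fin 3) :
    (univ.filter fun x => χ (e j x) = c).card ≤ (M c).card := by
  classical
  refine le_trans ?_ (Multiset.toFinset_card_le (M c))
  refine card_le_card_of_injOn (fun x => trv e σ ((ext σ j).symm x)) ?_ ?_
  · intro x hx
    rw [mem_coe, mem_filter] at hx
    obtain ⟨A, hA, hu⟩ := hχ (e j x)
    obtain ⟨i', h1, h2⟩ := h.eq_trv (hG _ A hA) hu
    have h3 : (ext σ j).symm x = i' := by rw [← h2]; simp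
    rw [mem_coe, Multiset.mem_toFinset]
    change trv e σ ((ext σ j).symm x) ∈ M c
    rw [h3, ← h1, ← hx.2]
    exact hA
  · intro x _ x' _ hx
    exact (ext σ j).symm.injective (h.trv_inj σ hx)

/-- **The core.** -/
theorem Grid.core (h : Grid e L) {I : Type*} [Fintype I] [DecidableEq I] (v : Sg t q → I)
    (M : Sg t q → Fin 3 → Multiset (Finset U)) {τ d : ℕ}
    (hG : ∀ σ c, ∀ A ∈ M σ c, A ∈ prt e L σ)
    (hτ : ∀ σ c, (M σ c).card ≤ τ)
    (hd : ∀ σ, (M σ 0).card + (M σ 1).card + (M σ 2).card ≤ q + d)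
    (hcross : ∀ s : Fin 3 → Sg t q, (∀ c c', v (s c) = v (s c')) →
      ∀ u, ∃ c, ∃ A ∈ M (s c) c, u ∈ A)
    (hτq : τ ≤ q) (K : ℕ) (hK : 1 ≤ K) :
    (q.choose τ * K ^ (q - d)) ^ t ≤ Fintype.card I * ((K + 2) ^ q) ^ t := by
  classical
  have hmain : ∀ i : I, (univ.filter fun σ => v σ = i).card * (K ^ (q - d)) ^ t ≤
      (τ.factorial * (q - τ).factorial * (K + 2) ^ q) ^ t := by
    intro i
    rcases (univ.filter fun σ => v σ = i).eq_empty_or_nonempty with h0 | ⟨σ0, hσ0⟩
    · rw [h0, card_empty, zero_mul]; exact Nat.zero_le _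
    rw [mem_filter] at hσ0
    have hcol : ∀ u, ∃ c, ∀ σ, v σ = i → ∃ A ∈ M σ c, u ∈ A := by
      intro u
      by_contra hcon
      push Not at hcon
      choose s hs1 hs2 using hcon
      obtain ⟨c, A, hA, hu⟩ := hcross s (fun c c' => by rw [hs1, hs1]) u
      exact hs2 c A hA hu
    choose χ hχ using hcol
    set f : Fin (t + 1) → Fin q → Fin 3 := fun j x => χ (e j x) with hf
    have hclass : ∀ j c, (univ.filter fun x => f j x = c).card ≤ τ := fun j c =>
      (h.class_le σ0 (M σ0) (hG σ0) χ (fun u => hχ u σ0 hσ0.2) j c).trans (hτ σ0 c)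
    set P : Fin t → Finset (Equiv.Perm (Fin q)) := fun j =>
      univ.filter fun π => (univ.filter fun i => f j.succ (π i) ≠ f 0 i).card ≤ d with hP
    have hsub : (univ.filter fun σ => v σ = i) ⊆ Fintype.piFinset P := by
      intro σ hσ
      rw [mem_filter] at hσ
      rw [Fintype.mem_piFinset]
      intro j
      rw [hP, mem_filter]
      refine ⟨mem_univ _, ?_⟩
      exact h.mixed_le σ (M σ) (hG σ) (hd σ) χ (fun u => hχ u σ hσ.2) j.succ 0
    have hPj : ∀ j, (P j).card * K ^ (q - d) ≤
        τ.factorial * (q - τ).factorial * (K + 2) ^ q := by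
      intro j
      have h1 := card_good_le (f j.succ) (f 0) K d hK
      rw [Fintype.card_fin] at h1
      rw [mul_comm]
      refine h1.trans (Nat.mul_le_mul_right _ ?_)
      rw [Fin.prod_univ_three]
      have hsum : (univ.filter fun x => f j.succ x = 0).card +
          (univ.filter fun x => f j.succ x = 1).card +
          (univ.filter fun x => f j.succ x = 2).card = q := by
        have h2 := card_eq_sum_card_fiberwise (s := (univ : Finset (Fin q))) (f := f j.succ)
          (t := univ) (fun x _ => mem_coe.2 (mem_univ _))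
        rw [card_univ, Fintype.card_fin, Fin.sum_univ_three] at h2
        exact h2.symm
      have h3 := fact_three (hclass j.succ 0) (hclass j.succ 1) (hclass j.succ 2)
        (by rw [hsum]; exact hτq)
      rw [hsum] at h3
      exact h3
    calc (univ.filter fun σ => v σ = i).card * (K ^ (q - d)) ^ t
        ≤ (Fintype.piFinset P).card * (K ^ (q - d)) ^ t :=
          Nat.mul_le_mul_right _ (card_le_card hsub)
      _ = ∏ j : Fin t, ((P j).card * K ^ (q - d)) := by
          rw [Fintype.card_piFinset, prod_mul_distrib, prod_const, card_univ, Fintype.card_fin]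
      _ ≤ ∏ _j : Fin t, (τ.factorial * (q - τ).factorial * (K + 2) ^ q) :=
          prod_le_prod' fun j _ => hPj j
      _ = _ := by rw [prod_const, card_univ, Fintype.card_fin]
  have htot : (q.factorial) ^ t = ∑ i : I, (univ.filter fun σ => v σ = i).card := by
    have h2 := card_eq_sum_card_fiberwise (s := (univ : Finset (Sg t q))) (f := v)
      (t := univ) (fun x _ => mem_coe.2 (mem_univ _))
    rw [← h2, card_univ]
    simp [Fintype.card_perm]
  have hfac : q.choose τ * (τ.factorial * (q - τ).factorial) = q.factorial := by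
    rw [← mul_assoc]; exact Nat.choose_mul_factorial_mul_factorial hτq
  have hpos : 0 < (τ.factorial * (q - τ).factorial) ^ t :=
    pow_pos (Nat.mul_pos (Nat.factorial_pos _) (Nat.factorial_pos _)) _
  refine Nat.le_of_mul_le_mul_right ?_ hpos
  calc (q.choose τ * K ^ (q - d)) ^ t * (τ.factorial * (q - τ).factorial) ^ t
      = (q.factorial) ^ t * (K ^ (q - d)) ^ t := by
        rw [← mul_pow, ← mul_pow, ← hfac]; congr 1; ring
    _ = ∑ i : I, (univ.filter fun σ => v σ = i).card * (K ^ (q - d)) ^ t := by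
        rw [htot, sum_mul]
    _ ≤ ∑ _i : I, (τ.factorial * (q - τ).factorial * (K + 2) ^ q) ^ t :=
        sum_le_sum fun i _ => hmain i
    _ = Fintype.card I * ((K + 2) ^ q) ^ t * (τ.factorial * (q - τ).factorial) ^ t := by
        rw [sum_const, card_univ, smul_eq_mul, mul_pow]; ring

end Pool.Agent.T9h48.SC
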