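import Mathlib

/-!
# Iterated partial derivatives of sums of products of affine forms
-/

open Finset MvPolynomial

set_option autoImplicit false

namespace Pool.Agent.T9h48.SC

variable {V K : Type*} [Field K]

/-- iterated partial derivatives -/
noncomputable def iter (l : List V) (P : MvPolynomial V K) : MvPolynomial V K :=
  l.foldr (fun v p => pderiv v p) P

/-- the factor -/
noncomputable def fac : List V → (V →₀ ℕ) → ℕ
  | [], _ => 1
  | v :: l, b => (b v + 1) * fac l (b + Finsupp.single v 1)

lemma fac_cons (v : V) (l : List V) (b : V →₀ ℕ) :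
    fac (v :: l) b = (b v + 1) * fac l (b + Finsupp.single v 1) := rfl

lemma coeff_iter (l : List V) (P : MvPolynomial V K) (b : V →₀ ℕ) :
    coeff b (iter l P) = coeff (b + (l.map fun v => Finsupp.single v 1).sum) P * (fac l b : K) := by
  classical
  induction l generalizing b with
  | nil => simp [iter, fac]
  | cons v l ih =>
    have h1 : iter (v :: l) P = pderiv v (iter l P) := rfl
    rw [h1, coeff_pderiv, ih, List.map_cons, List.sum_cons, add_assoc, fac_cons]
    push_cast
    ring

lemma fac_eq_one [DecidableEq V] (l : List V) (b : V →₀ ℕ) (hl : l.Nodup)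
    (hb : ∀ v ∈ l, b v = 0) : fac l b = 1 := by
  induction l generalizing b with
  | nil => rfl
  | cons v l ih =>
    rw [List.nodup_cons] at hl
    rw [fac_cons, hb v (List.mem_cons_self), ih _ hl.2]
    intro w hw
    have hvw : ¬ v = w := by
      rintro rfl
      exact hl.1 hw
    rw [Finsupp.add_apply, hb w (List.mem_cons_of_mem v hw), Finsupp.single_apply, if_neg hvw,
      add_zero]

lemma pderiv_affine (v : V) {f : MvPolynomial V K} (hf : f.totalDegree ≤ 1) :
    pderiv v f = C (coeff (Finsupp.single v 1) f) := by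
  classical
  ext m
  rw [coeff_pderiv, coeff_C]
  split_ifs with h
  · subst h; simp
  · have h1 : coeff (m + Finsupp.single v 1) f = 0 := by
      apply coeff_eq_zero_of_totalDegree_lt
      refine lt_of_le_of_lt hf ?_
      have hm : m ≠ 0 := fun h0 => h h0.symm
      obtain ⟨w, hw⟩ : ∃ w, m w ≠ 0 := by
        by_contra hcon
        push Not at hcon
        exact hm (Finsupp.ext hcon)
      change 1 < (m + Finsupp.single v 1).degree
      have h2 : (m + Finsupp.single v 1).degree = m.degree + 1 := by
        rw [map_add, Finsupp.degree_single]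
      have h3 : 1 ≤ m.degree := by
        have := Finsupp.le_degree w m
        omega
      omega
    rw [h1, zero_mul]

/-- span of the partial products -/
noncomputable def psp {r D : ℕ} (ℓ : Fin r → Fin D → MvPolynomial V K) (m : ℕ) :
    Submodule K (MvPolynomial V K) :=
  Submodule.span K (Set.range fun x : Fin r × {J : Finset (Fin D) // J.card = m} =>
    ∏ j ∈ x.2.1, ℓ x.1 j)

lemma pderiv_prod {ι : Type*} [DecidableEq ι] (J : Finset ι) (f : ι → MvPolynomial V K) (v : V) :
    pderiv v (∏ j ∈ J, f j) = ∑ j ∈ J, pderiv v (f j) * ∏ i ∈ J.erase j, f i := by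
  induction J using Finset.induction_on with
  | empty => simp
  | insert a J ha ih =>
    rw [prod_insert ha, pderiv_mul, ih, sum_insert ha, erase_insert ha, mul_sum]
    congr 1
    refine sum_congr rfl fun j hj => ?_
    have hja : a ≠ j := by rintro rfl; exact ha hj
    rw [erase_insert_of_ne hja, prod_insert (fun h => ha (mem_of_mem_erase h))]
    ring

lemma pderiv_mem_psp {r D : ℕ} {ℓ : Fin r → Fin D → MvPolynomial V K}
    (hℓ : ∀ i j, (ℓ i j).totalDegree ≤ 1) {m : ℕ} {f : MvPolynomial V K}
    (hf : f ∈ psp ℓ (m + 1)) (v : V) : pderiv v f ∈ psp ℓ m := by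
  classical
  unfold psp at hf
  induction hf using Submodule.span_induction with
  | mem f hf =>
    obtain ⟨⟨i, J, hJ⟩, rfl⟩ := hf
    simp only
    rw [pderiv_prod]
    refine Submodule.sum_mem _ fun j hj => ?_
    rw [pderiv_affine v (hℓ i j), ← smul_eq_C_mul]
    refine Submodule.smul_mem _ _ (Submodule.subset_span ⟨⟨i, J.erase j, ?_⟩, rfl⟩)
    rw [card_erase_of_mem hj, hJ]; rfl
  | zero => rw [map_zero]; exact Submodule.zero_mem _
  | add f g _ _ h1 h2 => rw [map_add]; exact Submodule.add_mem _ h1 h2
  | smul a f _ h1 => rw [Derivation.map_smul]; exact Submodule.smul_mem _ _ h1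

lemma iter_mem_psp {r D : ℕ} {ℓ : Fin r → Fin D → MvPolynomial V K}
    (hℓ : ∀ i j, (ℓ i j).totalDegree ≤ 1) (l : List V) :
    ∀ m, m + l.length = D → iter l (∑ i, ∏ j, ℓ i j) ∈ psp ℓ m := by
  induction l with
  | nil =>
    intro m hm
    change ∑ i, ∏ j, ℓ i j ∈ psp ℓ m
    refine Submodule.sum_mem _ fun i _ => Submodule.subset_span ⟨⟨i, univ, ?_⟩, rfl⟩
    rw [card_univ, Fintype.card_fin]
    simpa using hm.symm
  | cons v l ih =>
    intro m hm
    have h1 : iter (v :: l) (∑ i, ∏ j, ℓ i j) = pderiv v (iter l (∑ i, ∏ j, ℓ i j)) := rfl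
    rw [h1]
    refine pderiv_mem_psp hℓ (ih (m + 1) ?_) v
    rw [List.length_cons] at hm
    omega

lemma finrank_psp_le {r D : ℕ} (ℓ : Fin r → Fin D → MvPolynomial V K) (m : ℕ) :
    Module.finrank K (psp ℓ m) ≤ r * D.choose m := by
  classical
  unfold psp
  refine (finrank_range_le_card _).trans (le_of_eq ?_)
  rw [Fintype.card_prod, Fintype.card_fin]
  congr 1
  have := Fintype.card_finset_len (α := Fin D) m
  rw [Fintype.card_fin] at this
  exact this

/-- **The rank bound.** If the matrix of the coefficients of `x ^ (b R')` in the derivatives of `P`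
with respect to the lists `l R` is diagonal with nonzero diagonal entries, then
`|I| ≤ r * binom(D, h)`. -/
theorem rank_bound {I : Type*} [Fintype I] [DecidableEq V] {r D h : ℕ}
    (ℓ : Fin r → Fin D → MvPolynomial V K)
    (hℓ : ∀ i j, (ℓ i j).totalDegree ≤ 1) (hD : h ≤ D) (l : I → List V) (b : I → V →₀ ℕ)
    (hlen : ∀ R, (l R).length = h) (hnodup : ∀ R, (l R).Nodup) (hb : ∀ R, ∀ v ∈ l R, b R v = 0)
    (hdiag : ∀ R, coeff (b R + ((l R).map fun v => Finsupp.single v 1).sum)
      (∑ i, ∏ j, ℓ i j) ≠ 0)
    (hoff : ∀ R R', R ≠ R' → coeff (b R' + ((l R).map fun v => Finsupp.single v 1).sum)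
      (∑ i, ∏ j, ℓ i j) = 0) :
    Fintype.card I ≤ r * D.choose h := by
  classical
  set P := ∑ i, ∏ j, ℓ i j
  set Φ : MvPolynomial V K →ₗ[K] (I → K) := LinearMap.pi fun R => lcoeff K (b R) with hΦ
  have h1 : ∀ R R', Φ (iter (l R) P) R' =
      if R = R' then coeff (b R + ((l R).map fun v => Finsupp.single v 1).sum) P else 0 := by
    intro R R'
    have e1 : Φ (iter (l R) P) R' = coeff (b R') (iter (l R) P) := rfl
    rw [e1, coeff_iter]
    split_ifs with h2
    · subst h2
      rw [fac_eq_one _ _ (hnodup R) (hb R)]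
      simp
    · rw [hoff R R' h2, zero_mul]
  have hfin : FiniteDimensional K (psp ℓ (D - h)) := by
    unfold psp
    exact FiniteDimensional.span_of_finite K (Set.finite_range _)
  have h2 : Submodule.map Φ (psp ℓ (D - h)) = ⊤ := by
    rw [eq_top_iff]
    intro x _
    have h3 : x = ∑ R, (x R * (coeff (b R + ((l R).map fun v => Finsupp.single v 1).sum) P)⁻¹) •
        Φ (iter (l R) P) := by
      funext R'
      rw [Finset.sum_apply]
      simp only [Pi.smul_apply, h1, smul_eq_mul, mul_ite, mul_zero]
      rw [Finset.sum_ite_eq' univ R']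
      rw [if_pos (mem_univ _), mul_assoc, inv_mul_cancel₀ (hdiag R'), mul_one]
    rw [h3]
    refine Submodule.sum_mem _ fun R _ => Submodule.smul_mem _ _
      (Submodule.mem_map_of_mem (iter_mem_psp hℓ _ _ ?_))
    rw [hlen]; omega
  have h3 : Module.finrank K (Submodule.map Φ (psp ℓ (D - h))) ≤
      Module.finrank K (psp ℓ (D - h)) := Submodule.finrank_map_le _ _
  rw [h2, finrank_top, Module.finrank_fintype_fun_eq_card] at h3
  refine h3.trans ((finrank_psp_le ℓ _).trans (le_of_eq ?_))
  rw [Nat.choose_symm hD]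

end Pool.Agent.T9h48.SC
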