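import Mathlib

/-!
# Decomposable negation normal forms (DNNF): definitions
-/

open Finset

set_option autoImplicit false

namespace Pool.Agent.T9h48.SC

/-- A Boolean circuit in negation normal form over the variables `v : V`: the operands of the
AND gates (`isAnd i = true`) and OR gates (`isAnd i = false`) and the output are literals `(v, b)`
(the literal is true if `x v = b`), constants or gates. -/
structure NNF (V : Type) where
  size : ℕ
  isAnd : Fin size → Bool
  left : Fin size → (V × Bool) ⊕ Bool ⊕ Fin size
  right : Fin size → (V × Bool) ⊕ Bool ⊕ Fin size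
  out : (V × Bool) ⊕ Bool ⊕ Fin size
  acyclic : ∀ i j, (left i = Sum.inr (Sum.inr j) ∨ right i = Sum.inr (Sum.inr j)) → j < i

namespace NNF

variable {V : Type}

/-- The value of an operand on the input `x` if the gates have the values `val`. -/
def nodeVal {m : ℕ} (x : V → Bool) (val : Fin m → Bool) : (V × Bool) ⊕ Bool ⊕ Fin m → Bool :=
  Sum.elim (fun l => x l.1 == l.2) (Sum.elim id val)

/-- `val` are the values of the gates on the input `x`. -/
def IsRun (C : NNF V) (x : V → Bool) (val : Fin C.size → Bool) : Prop :=
  ∀ i, val i = if C.isAnd i = true then nodeVal x val (C.left i) && nodeVal x val (C.right i)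
    else nodeVal x val (C.left i) || nodeVal x val (C.right i)

/-- The circuit accepts the input `x`. -/
def Accepts (C : NNF V) (x : V → Bool) : Prop :=
  ∃ val, C.IsRun x val ∧ nodeVal x val C.out = true

/-- The variable `v` occurs below the operand. -/
inductive Occurs (C : NNF V) : (V × Bool) ⊕ Bool ⊕ Fin C.size → V → Prop
  | lit (v : V) (b : Bool) : Occurs C (Sum.inl (v, b)) v
  | left (i : Fin C.size) (v : V) : Occurs C (C.left i) v → Occurs C (Sum.inr (Sum.inr i)) v
  | right (i : Fin C.size) (v : V) : Occurs C (C.right i) v → Occurs C (Sum.inr (Sum.inr i)) v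

/-- The circuit is decomposable (a DNNF): no variable occurs below both operands of an AND gate. -/
def Decomposable (C : NNF V) : Prop :=
  ∀ i, C.isAnd i = true → ∀ v, ¬ (C.Occurs (C.left i) v ∧ C.Occurs (C.right i) v)

/-- The number of AND gates. -/
def numAnd (C : NNF V) : ℕ := (univ.filter fun i => C.isAnd i = true).card

end NNF

end Pool.Agent.T9h48.SC
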