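import Pool.Agent.T9h48.SC.Core
import Pool.Agent.T9h48.SC.NNFDefs

/-!
# DNNFs for the set cover problem
-/

open Finset

set_option autoImplicit false

namespace Pool.Agent.T9h48.SC

namespace NNF

variable {V : Type} (C : NNF V)

/-- terms: `M` are the positive, `Z` the negative literals -/
inductive Produces : (V × Bool) ⊕ Bool ⊕ Fin C.size → Multiset V → Set V → Prop
  | pos (v : V) : Produces (Sum.inl (v, true)) {v} ∅
  | neg (v : V) : Produces (Sum.inl (v, false)) 0 {v}
  | const : Produces (Sum.inr (Sum.inl true)) 0 ∅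
  | and (i : Fin C.size) (M N : Multiset V) (Y Z : Set V) : C.isAnd i = true →
      Produces (C.left i) M Y → Produces (C.right i) N Z →
      Produces (Sum.inr (Sum.inr i)) (M + N) (Y ∪ Z)
  | orl (i : Fin C.size) (M : Multiset V) (Z : Set V) : ¬ C.isAnd i = true →
      Produces (C.left i) M Z → Produces (Sum.inr (Sum.inr i)) M Z
  | orr (i : Fin C.size) (M : Multiset V) (Z : Set V) : ¬ C.isAnd i = true →
      Produces (C.right i) M Z → Produces (Sum.inr (Sum.inr i)) M Z

/-- contexts -/
inductive Ctx : (V × Bool) ⊕ Bool ⊕ Fin C.size → Multiset V → Set V → Prop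
  | out : Ctx C.out 0 ∅
  | andl (i : Fin C.size) (R M : Multiset V) (W Y : Set V) : C.isAnd i = true →
      Ctx (Sum.inr (Sum.inr i)) R W → C.Produces (C.right i) M Y → Ctx (C.left i) (M + R) (Y ∪ W)
  | andr (i : Fin C.size) (R M : Multiset V) (W Y : Set V) : C.isAnd i = true →
      Ctx (Sum.inr (Sum.inr i)) R W → C.Produces (C.left i) M Y → Ctx (C.right i) (M + R) (Y ∪ W)
  | orl (i : Fin C.size) (R : Multiset V) (W : Set V) : ¬ C.isAnd i = true →
      Ctx (Sum.inr (Sum.inr i)) R W → Ctx (C.left i) R W
  | orr (i : Fin C.size) (R : Multiset V) (W : Set V) : ¬ C.isAnd i = true →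
      Ctx (Sum.inr (Sum.inr i)) R W → Ctx (C.right i) R W

variable {C}

lemma Ctx.produces {x : (V × Bool) ⊕ Bool ⊕ Fin C.size} {R : Multiset V} {W : Set V}
    (h : C.Ctx x R W) : ∀ M Y, C.Produces x M Y → C.Produces C.out (M + R) (Y ∪ W) := by
  induction h with
  | out => intro M Y hM; rw [add_zero, Set.union_empty]; exact hM
  | andl i R N W Z hi _ hN ih =>
    intro M Y hM
    have := ih _ _ (Produces.and i M N Y Z hi hM hN)
    rwa [add_assoc, Set.union_assoc] at this
  | andr i R N W Z hi _ hN ih =>
    intro M Y hM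
    have := ih _ _ (Produces.and i N M Z Y hi hN hM)
    rwa [add_comm N M, add_assoc, Set.union_comm Z Y, Set.union_assoc] at this
  | orl i R W hi _ ih =>
    intro M Y hM
    exact ih _ _ (Produces.orl i M Y hi hM)
  | orr i R W hi _ ih =>
    intro M Y hM
    exact ih _ _ (Produces.orr i M Y hi hM)

/-- a term implies the function -/
lemma Produces.sound {x : (V × Bool) ⊕ Bool ⊕ Fin C.size} {M : Multiset V} {Z : Set V}
    (h : C.Produces x M Z) {w : V → Bool} {val : Fin C.size → Bool} (hv : C.IsRun w val) :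
    (∀ v ∈ M, w v = true) → (∀ v ∈ Z, w v = false) → nodeVal w val x = true := by
  induction h with
  | pos v => intro h _; simp [nodeVal, h v (Multiset.mem_singleton_self v)]
  | neg v => intro _ h; simp [nodeVal, h v rfl]
  | const => intro _ _; rfl
  | and i M N Y Z hi _ _ ih1 ih2 =>
    intro h h'
    have h1 := ih1 (fun v hv => h v (Multiset.mem_add.2 (Or.inl hv))) (fun v hv => h' v (Or.inl hv))
    have h2 := ih2 (fun v hv => h v (Multiset.mem_add.2 (Or.inr hv))) (fun v hv => h' v (Or.inr hv))
    have h3 := hv i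
    rw [if_pos hi, h1, h2] at h3
    exact h3
  | orl i M Z hi _ ih =>
    intro h h'
    have h3 := hv i
    rw [if_neg hi, ih h h', Bool.true_or] at h3
    exact h3
  | orr i M Z hi _ ih =>
    intro h h'
    have h3 := hv i
    rw [if_neg hi, ih h h', Bool.or_true] at h3
    exact h3

lemma complete_aux {w : V → Bool} {val : Fin C.size → Bool} (hv : C.IsRun w val) (m : ℕ) :
    ∀ i : Fin C.size, (i : ℕ) < m → val i = true →
      ∃ M Z, C.Produces (Sum.inr (Sum.inr i)) M Z ∧ (∀ v ∈ M, w v = true) ∧
        ∀ v ∈ Z, w v = false := by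
  induction m with
  | zero => intro i hi; omega
  | succ m ih =>
    intro i hi hfin
    have hnode : ∀ x : (V × Bool) ⊕ Bool ⊕ Fin C.size, (∀ j, x = Sum.inr (Sum.inr j) → j < i) →
        nodeVal w val x = true → ∃ M Z, C.Produces x M Z ∧ (∀ v ∈ M, w v = true) ∧
          ∀ v ∈ Z, w v = false := by
      intro x hx hx'
      rcases x with ⟨v, b⟩ | c | j
      · cases b
        · refine ⟨0, {v}, Produces.neg v, by simp, ?_⟩
          intro u hu
          rw [Set.mem_singleton_iff] at hu
          subst hu
          simpa [nodeVal] using hx'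
        · refine ⟨{v}, ∅, Produces.pos v, ?_, by simp⟩
          intro u hu
          rw [Multiset.mem_singleton] at hu
          subst hu
          simpa [nodeVal] using hx'
      · have : c = true := hx'
        subst this
        exact ⟨0, ∅, Produces.const, by simp, by simp⟩
      · have hj := hx j rfl
        exact ih j (by have : (j : ℕ) < i := hj; omega) hx'
    have h3 := hv i
    rw [hfin] at h3
    by_cases hi : C.isAnd i = true
    · rw [if_pos hi] at h3
      obtain ⟨f1, f2⟩ := (Bool.and_eq_true _ _).mp h3.symm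
      obtain ⟨M, Y, hM, a1, a2⟩ := hnode _ (fun j hj => C.acyclic i j (Or.inl hj)) f1
      obtain ⟨N, Z, hN, b1, b2⟩ := hnode _ (fun j hj => C.acyclic i j (Or.inr hj)) f2
      refine ⟨M + N, Y ∪ Z, Produces.and i M N Y Z hi hM hN, ?_, ?_⟩
      · intro v hv
        rcases Multiset.mem_add.1 hv with h | h
        · exact a1 v h
        · exact b1 v h
      · rintro v (h | h)
        · exact a2 v h
        · exact b2 v h
    · rw [if_neg hi] at h3
      rcases (Bool.or_eq_true _ _).mp h3.symm with f1 | f1
      · obtain ⟨M, Y, hM, a1, a2⟩ := hnode _ (fun j hj => C.acyclic i j (Or.inl hj)) f1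
        exact ⟨M, Y, Produces.orl i M Y hi hM, a1, a2⟩
      · obtain ⟨M, Y, hM, a1, a2⟩ := hnode _ (fun j hj => C.acyclic i j (Or.inr hj)) f1
        exact ⟨M, Y, Produces.orr i M Y hi hM, a1, a2⟩

lemma complete {w : V → Bool} {val : Fin C.size → Bool} (hv : C.IsRun w val)
    (x : (V × Bool) ⊕ Bool ⊕ Fin C.size) (hx' : nodeVal w val x = true) :
    ∃ M Z, C.Produces x M Z ∧ (∀ v ∈ M, w v = true) ∧ ∀ v ∈ Z, w v = false := by
  rcases x with ⟨v, b⟩ | c | j
  · cases b
    · refine ⟨0, {v}, Produces.neg v, by simp, ?_⟩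
      intro u hu
      rw [Set.mem_singleton_iff] at hu
      subst hu
      simpa [nodeVal] using hx'
    · refine ⟨{v}, ∅, Produces.pos v, ?_, by simp⟩
      intro u hu
      rw [Multiset.mem_singleton] at hu
      subst hu
      simpa [nodeVal] using hx'
  · have : c = true := hx'
    subst this
    exact ⟨0, ∅, Produces.const, by simp, by simp⟩
  · exact complete_aux hv _ j (Nat.lt_succ_self _) hx'

lemma Produces.occurs {x : (V × Bool) ⊕ Bool ⊕ Fin C.size} {M : Multiset V} {Z : Set V}
    (h : C.Produces x M Z) : (∀ v ∈ M, C.Occurs x v) ∧ ∀ v ∈ Z, C.Occurs x v := by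
  induction h with
  | pos v =>
    refine ⟨fun u hu => ?_, by simp⟩
    rw [Multiset.mem_singleton] at hu
    subst hu
    exact Occurs.lit _ _
  | neg v =>
    refine ⟨by simp, fun u hu => ?_⟩
    rw [Set.mem_singleton_iff] at hu
    subst hu
    exact Occurs.lit _ _
  | const => exact ⟨by simp, by simp⟩
  | and i M N Y Z hi _ _ ih1 ih2 =>
    refine ⟨fun v hv => ?_, fun v hv => ?_⟩
    · rcases Multiset.mem_add.1 hv with h | h
      · exact Occurs.left i v (ih1.1 v h)
      · exact Occurs.right i v (ih2.1 v h)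
    · rcases hv with h | h
      · exact Occurs.left i v (ih1.2 v h)
      · exact Occurs.right i v (ih2.2 v h)
  | orl i M Z hi _ ih => exact ⟨fun v hv => Occurs.left i v (ih.1 v hv),
      fun v hv => Occurs.left i v (ih.2 v hv)⟩
  | orr i M Z hi _ ih => exact ⟨fun v hv => Occurs.right i v (ih.1 v hv),
      fun v hv => Occurs.right i v (ih.2 v hv)⟩

/-- the terms of a DNNF are consistent and have no repetitions -/
lemma Produces.consistent (hC : C.Decomposable) {x : (V × Bool) ⊕ Bool ⊕ Fin C.size}
    {M : Multiset V} {Z : Set V} (h : C.Produces x M Z) : M.Nodup ∧ ∀ v ∈ M, v ∉ Z := by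
  induction h with
  | pos v => exact ⟨Multiset.nodup_singleton _, by simp⟩
  | neg v => exact ⟨Multiset.nodup_zero, by simp⟩
  | const => exact ⟨Multiset.nodup_zero, by simp⟩
  | and i M N Y Z hi hM hN ih1 ih2 =>
    have hd := hC i hi
    refine ⟨?_, ?_⟩
    · rw [Multiset.nodup_add]
      refine ⟨ih1.1, ih2.1, ?_⟩
      rw [Multiset.disjoint_left]
      intro v hv hv'
      exact hd v ⟨hM.occurs.1 v hv, hN.occurs.1 v hv'⟩
    · intro v hv hvz
      rcases Multiset.mem_add.1 hv with h | h
      · rcases hvz with h' | h'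
        · exact ih1.2 v h h'
        · exact hd v ⟨hM.occurs.1 v h, hN.occurs.2 v h'⟩
      · rcases hvz with h' | h'
        · exact hd v ⟨hM.occurs.2 v h', hN.occurs.1 v h⟩
        · exact ih2.2 v h h'
  | orl i M Z hi _ ih => exact ih
  | orr i M Z hi _ ih => exact ih

/-- a large term passes through a balanced AND gate -/
lemma Produces.heavy {x : (V × Bool) ⊕ Bool ⊕ Fin C.size} {M : Multiset V} {Y : Set V}
    (h : C.Produces x M Y) {τ : ℕ} (hτ : 1 ≤ τ) : ∀ R W, C.Ctx x R W → τ < M.card →
    ∃ i, C.isAnd i = true ∧ ∃ M1 M2 R' Y1 Y2 W', C.Produces (C.left i) M1 Y1 ∧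
      C.Produces (C.right i) M2 Y2 ∧
      C.Ctx (Sum.inr (Sum.inr i)) R' W' ∧ M1 + M2 + R' = M + R ∧ M1.card ≤ τ ∧ M2.card ≤ τ ∧
      τ < M1.card + M2.card := by
  induction h with
  | pos v => intro R W _ h; rw [Multiset.card_singleton] at h; omega
  | neg v => intro R W _ h; rw [Multiset.card_zero] at h; omega
  | const => intro R W _ h; rw [Multiset.card_zero] at h; omega
  | and i M N Y Z hi hM hN ih1 ih2 =>
    intro R W hR h
    rcases Nat.lt_or_ge τ M.card with h1 | h1
    · obtain ⟨k, hk, M1, M2, R', Y1, Y2, W', a1, a2, a3, a4, a5⟩ :=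
        ih1 _ _ (Ctx.andl i R N W Z hi hR hN) h1
      exact ⟨k, hk, M1, M2, R', Y1, Y2, W', a1, a2, a3, by rw [a4, add_assoc], a5⟩
    rcases Nat.lt_or_ge τ N.card with h2 | h2
    · obtain ⟨k, hk, M1, M2, R', Y1, Y2, W', a1, a2, a3, a4, a5⟩ :=
        ih2 _ _ (Ctx.andr i R M W Y hi hR hM) h2
      exact ⟨k, hk, M1, M2, R', Y1, Y2, W', a1, a2, a3,
        by rw [a4, ← add_assoc, add_comm N M], a5⟩
    · rw [Multiset.card_add] at h
      exact ⟨i, hi, M, N, R, Y, Z, W, hM, hN, hR, rfl, h1, h2, h⟩
  | orl i M Z hi hM ih =>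
    intro R W hR h
    exact ih R W (Ctx.orl i R W hi hR) h
  | orr i M Z hi hM ih =>
    intro R W hR h
    exact ih R W (Ctx.orr i R W hi hR) h

end NNF

/-- the partition without the empty set -/
def prt' {n t q : ℕ} (e : Fin (t + 1) → Fin q → Fin n) (L : Finset (Fin n)) (σ : Sg t q) :
    Finset (Finset (Fin n)) := univ.image (trv e σ) ∪ if L = ∅ then ∅ else {L}

open NNF in
/-- **The lower bound**, explicit form. -/
theorem nnf_bound {n t q : ℕ} {e : Fin (t + 1) → Fin q → Fin n} {L : Finset (Fin n)}
    (h : Grid e L) (hL : L.card ≤ t + 1) (C : NNF (Finset (Fin n))) (hdec : C.Decomposable)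
    (k T : ℕ) (hk : k = q + if L = ∅ then 0 else 1) (hkT : k ≤ T)
    (hC1 : ∀ F : Finset (Finset (Fin n)), (∀ A ∈ F, A.card ≤ t + 1) →
      (∃ G ⊆ F, G.card ≤ k ∧ ∀ u, ∃ A ∈ G, u ∈ A) → C.Accepts fun A => decide (A ∈ F))
    (hC2 : ∀ F : Finset (Finset (Fin n)), (∀ A ∈ F, A.card ≤ t + 1) →
      (C.Accepts fun A => decide (A ∈ F)) → ∀ u, ∃ A ∈ F, u ∈ A)
    (hT2 : 2 ≤ T) (hTq : T / 2 < q) (K : ℕ) (hK : 1 ≤ K) :
    (q.choose (T / 2) * K ^ (q - (T - q))) ^ t ≤ C.numAnd * ((K + 2) ^ q) ^ t := by
  classical
  set τ := T / 2 with hτ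
  have hprt : ∀ σ : Sg t q, ∀ A ∈ prt e L σ, A.card ≤ t + 1 := by
    intro σ A hA
    unfold prt at hA
    rw [mem_insert, mem_image] at hA
    rcases hA with rfl | ⟨i, _, rfl⟩
    · exact hL
    · exact card_trv_le σ i
  have hsub : ∀ σ : Sg t q, prt' e L σ ⊆ prt e L σ := by
    intro σ A hA
    unfold prt' at hA
    unfold prt
    rw [mem_union] at hA
    rcases hA with hA | hA
    · exact mem_insert_of_mem hA
    · split_ifs at hA
      · exact absurd hA (notMem_empty _)
      · rw [mem_singleton] at hA
        rw [hA]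
        exact mem_insert_self _ _
  have hcard : ∀ σ : Sg t q, (prt' e L σ).card ≤ k := by
    intro σ
    unfold prt'
    refine (card_union_le _ _).trans ?_
    rw [hk]
    refine Nat.add_le_add (card_image_le.trans (by rw [card_univ, Fintype.card_fin])) ?_
    split_ifs
    · simp
    · simp
  have hcover' : ∀ σ : Sg t q, ∀ u, ∃ A ∈ prt' e L σ, u ∈ A := by
    intro σ u
    obtain ⟨A, hA, hu⟩ := h.cover σ u
    unfold prt at hA
    unfold prt'
    rw [mem_insert] at hA
    rcases hA with rfl | hA
    · refine ⟨A, ?_, hu⟩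
      rw [mem_union, if_neg (Finset.ne_empty_of_mem hu)]
      exact Or.inr (mem_singleton_self _)
    · exact ⟨A, mem_union_left _ hA, hu⟩
  -- terms of small sets are covers
  have hcov : ∀ M Z, C.Produces C.out M Z → (∀ A ∈ M, A.card ≤ t + 1) →
      ∀ u, ∃ A ∈ M, u ∈ A := by
    intro M Z hM hsmall u
    have hcons := hM.consistent hdec
    have h0 : C.Accepts fun A => decide (A ∈ M.toFinset) := by
      -- a run exists since the circuit accepts or not: take the run of the evaluation
      obtain ⟨val, hrun⟩ : ∃ val, C.IsRun (fun A => decide (A ∈ M.toFinset)) val := by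
        have key : ∀ m : ℕ, ∃ val : Fin C.size → Bool, ∀ i : Fin C.size, (i : ℕ) < m →
            val i = if C.isAnd i = true then
              nodeVal (fun A => decide (A ∈ M.toFinset)) val (C.left i) &&
                nodeVal (fun A => decide (A ∈ M.toFinset)) val (C.right i)
              else nodeVal (fun A => decide (A ∈ M.toFinset)) val (C.left i) ||
                nodeVal (fun A => decide (A ∈ M.toFinset)) val (C.right i) := by
          intro m
          induction m with
          | zero => exact ⟨fun _ => false, fun i hi => absurd hi (Nat.not_lt_zero _)⟩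
          | succ m ih =>
            obtain ⟨val, hval⟩ := ih
            by_cases hm : m < C.size
            · set i0 : Fin C.size := ⟨m, hm⟩ with hi0
              set b : Bool := if C.isAnd i0 = true then
                nodeVal (fun A => decide (A ∈ M.toFinset)) val (C.left i0) &&
                  nodeVal (fun A => decide (A ∈ M.toFinset)) val (C.right i0)
                else nodeVal (fun A => decide (A ∈ M.toFinset)) val (C.left i0) ||
                  nodeVal (fun A => decide (A ∈ M.toFinset)) val (C.right i0) with hb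
              refine ⟨Function.update val i0 b, fun i hi => ?_⟩
              have hnode : ∀ y : (Finset (Fin n) × Bool) ⊕ Bool ⊕ Fin C.size,
                  (∀ j, y = Sum.inr (Sum.inr j) → j < i) →
                  nodeVal (fun A => decide (A ∈ M.toFinset)) (Function.update val i0 b) y =
                  nodeVal (fun A => decide (A ∈ M.toFinset)) val y := by
                intro y hy
                rcases y with y | c | j
                · rfl
                · rfl
                · have hj := hy j rfl
                  change Function.update val i0 b j = val j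
                  rw [Function.update_of_ne]
                  intro hji
                  rw [hji] at hj
                  have : (i0 : ℕ) < i := hj
                  rw [hi0] at this
                  simp only at this
                  omega
              rw [hnode _ (fun j hj => C.acyclic i j (Or.inl hj)),
                hnode _ (fun j hj => C.acyclic i j (Or.inr hj))]
              by_cases hii : i = i0
              · subst hii
                rw [Function.update_self]
              · rw [Function.update_of_ne hii]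
                apply hval
                have : (i : ℕ) ≠ m := fun h => hii (Fin.ext h)
                omega
            · exact ⟨val, fun i hi => hval i (by have := i.2; omega)⟩
        obtain ⟨val, hval⟩ := key C.size
        exact ⟨val, fun i => hval i i.2⟩
      refine ⟨val, hrun, hM.sound hrun ?_ ?_⟩
      · intro v hv
        exact decide_eq_true (Multiset.mem_toFinset.2 hv)
      · intro v hv
        exact decide_eq_false fun hv' => hcons.2 v (Multiset.mem_toFinset.1 hv') hv
    obtain ⟨A, hA, hu⟩ := hC2 M.toFinset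
      (fun A hA => hsmall A (Multiset.mem_toFinset.1 hA)) h0 u
    exact ⟨A, Multiset.mem_toFinset.1 hA, hu⟩
  -- the term of a partition
  have hmono : ∀ σ : Sg t q, ∃ M Z, C.Produces C.out M Z ∧ (∀ A ∈ M, A ∈ prt' e L σ) ∧
      M.card ≤ T := by
    intro σ
    obtain ⟨val, hrun, hout⟩ := hC1 (prt' e L σ) (fun A hA => hprt σ A (hsub σ hA))
      ⟨prt' e L σ, Subset.refl _, hcard σ, hcover' σ⟩
    obtain ⟨M, Z, hM, h1, _⟩ := complete hrun C.out hout
    have h2 : ∀ A ∈ M, A ∈ prt' e L σ := fun A hA => of_decide_eq_true (h1 A hA)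
    refine ⟨M, Z, hM, h2, ?_⟩
    have h3 := (hM.consistent hdec).1
    have h4 : M.card = M.toFinset.card := by
      rw [Multiset.toFinset_card_of_nodup h3]
    rw [h4]
    refine (card_le_card fun A hA => h2 A (Multiset.mem_toFinset.1 hA)).trans ?_
    exact (hcard σ).trans hkT
  choose M Z hM hMG hMT using hmono
  have hMG' : ∀ σ, ∀ A ∈ M σ, A ∈ prt e L σ := fun σ A hA => hsub σ (hMG σ A hA)
  have hMq : ∀ σ, q ≤ (M σ).card := by
    intro σ
    refine le_trans ?_ (Multiset.toFinset_card_le (M σ))
    have h1 : univ.image (trv e σ) ⊆ (M σ).toFinset := by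
      intro A hA
      obtain ⟨i, _, rfl⟩ := mem_image.1 hA
      obtain ⟨A, hA, hu⟩ := hcov (M σ) (Z σ) (hM σ) (fun A hA => hprt σ A (hMG' σ A hA))
        (e 0 (ext σ 0 i))
      obtain ⟨i', h2, h3⟩ := h.eq_trv (hMG' σ A hA) hu
      have h4 : i' = i := (ext σ 0).injective h3
      rw [h4] at h2
      rw [Multiset.mem_toFinset, ← h2]
      exact hA
    have h2 := card_le_card h1
    rwa [card_image_of_injective _ (h.trv_inj σ), card_univ, Fintype.card_fin] at h2
  have hsplit := fun σ => (hM σ).heavy (τ := τ) (by omega) 0 ∅ Ctx.out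
    (lt_of_lt_of_le hTq (hMq σ))
  choose v hv M1 M2 R' Y1 Y2 W' h1 h2 h3 h4 h5 h6 h7 using hsplit
  have hsum : ∀ σ, (M1 σ).card + (M2 σ).card + (R' σ).card = (M σ).card := by
    intro σ
    have := congrArg Multiset.card (h4 σ)
    rwa [Multiset.card_add, Multiset.card_add, add_zero] at this
  have hmem : ∀ σ, (∀ A ∈ M1 σ, A ∈ M σ) ∧ (∀ A ∈ M2 σ, A ∈ M σ) ∧ (∀ A ∈ R' σ, A ∈ M σ) := by
    intro σ
    have h8 := h4 σ
    rw [add_zero] at h8
    rw [← h8]
    refine ⟨fun A hA => ?_, fun A hA => ?_, fun A hA => ?_⟩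
    · exact Multiset.mem_add.2 (Or.inl (Multiset.mem_add.2 (Or.inl hA)))
    · exact Multiset.mem_add.2 (Or.inl (Multiset.mem_add.2 (Or.inr hA)))
    · exact Multiset.mem_add.2 (Or.inr hA)
  have hcore := h.core (I := {i : Fin C.size // C.isAnd i = true}) (fun σ => ⟨v σ, hv σ⟩)
    (fun σ => ![M1 σ, M2 σ, R' σ]) (τ := τ) (d := T - q) (by
      intro σ c A hA
      fin_cases c
      · exact hMG' σ A ((hmem σ).1 A hA)
      · exact hMG' σ A ((hmem σ).2.1 A hA)
      · exact hMG' σ A ((hmem σ).2.2 A hA)) (by
      intro σ c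
      fin_cases c
      · exact h5 σ
      · exact h6 σ
      · change (R' σ).card ≤ τ
        have e1 := hsum σ
        have e2 := hMT σ
        have e3 := h7 σ
        omega) (by
      intro σ
      change (M1 σ).card + (M2 σ).card + (R' σ).card ≤ q + (T - q)
      have e1 := hsum σ
      have e2 := hMT σ
      omega) (by
      intro s hs u
      have g1 : C.Produces (C.left (v (s 0))) (M1 (s 0)) (Y1 (s 0)) := h1 (s 0)
      have g2 : C.Produces (C.right (v (s 0))) (M2 (s 1)) (Y2 (s 1)) := by
        have e1 := congrArg Subtype.val (hs 0 1)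
        change v (s 0) = v (s 1) at e1
        rw [e1]
        exact h2 (s 1)
      have g3 : C.Ctx (Sum.inr (Sum.inr (v (s 0)))) (R' (s 2)) (W' (s 2)) := by
        have e1 := congrArg Subtype.val (hs 0 2)
        change v (s 0) = v (s 2) at e1
        rw [e1]
        exact h3 (s 2)
      have g4 := g3.produces _ _ (Produces.and (v (s 0)) _ _ _ _ (hv (s 0)) g1 g2)
      obtain ⟨A, hA, hu⟩ := hcov _ _ g4 (by
        intro A hA
        rw [Multiset.mem_add, Multiset.mem_add] at hA
        rcases hA with (hA | hA) | hA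
        · exact hprt _ A (hMG' _ A ((hmem _).1 A hA))
        · exact hprt _ A (hMG' _ A ((hmem _).2.1 A hA))
        · exact hprt _ A (hMG' _ A ((hmem _).2.2 A hA))) u
      rw [Multiset.mem_add, Multiset.mem_add] at hA
      rcases hA with (hA | hA) | hA
      · exact ⟨0, A, hA, hu⟩
      · exact ⟨1, A, hA, hu⟩
      · exact ⟨2, A, hA, hu⟩) hTq.le K hK
  rw [Fintype.card_subtype] at hcore
  exact hcore

end Pool.Agent.T9h48.SC
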