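import Pool.Agent.T9h48.SC.Core
import Pool.Agent.T9h48.SC.GridN
import Pool.Agent.T9h48.SC.Asymp

/-!
# Read-once algebraic branching programs for set cover
-/

open Finset Matrix

set_option autoImplicit false

namespace Pool.Agent.T9h48.SC

/-! ### the rank bound -/

section rank

variable {K : Type*} [Field K] {N w : ℕ}

/-- The value of the read-once algebraic branching program with the transition matrices `M j b`,
the initial vector `u` and the final vector `v` on the input `x`. -/
def roVal (M : Fin N → Bool → Matrix (Fin w) (Fin w) K) (u v : Fin w → K) (x : Fin N → Bool) : K :=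
  u ⬝ᵥ ((List.ofFn fun j => M j (x j)).prod *ᵥ v)

/-- mixing two inputs at the cut `j` -/
def mix (j : ℕ) (x y : Fin N → Bool) : Fin N → Bool := fun i => if (i : ℕ) < j then x i else y i

lemma roVal_mix (M : Fin N → Bool → Matrix (Fin w) (Fin w) K) (u v : Fin w → K) (j : ℕ)
    (x y : Fin N → Bool) : roVal M u v (mix j x y) =
      (u ᵥ* ((List.ofFn fun i => M i (x i)).take j).prod) ⬝ᵥ
        (((List.ofFn fun i => M i (y i)).drop j).prod *ᵥ v) := by
  have h1 : (List.ofFn fun i => M i (mix j x y i)).take j = (List.ofFn fun i => M i (x i)).take j := by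
    apply List.ext_getElem
    · simp
    · intro i h1 h2
      have hi : i < j := by
        rw [List.length_take] at h1; omega
      simp [mix, hi]
  have h2 : (List.ofFn fun i => M i (mix j x y i)).drop j = (List.ofFn fun i => M i (y i)).drop j := by
    apply List.ext_getElem
    · simp
    · intro i h1 h2
      simp [mix]
  unfold roVal
  rw [← List.prod_take_mul_prod_drop _ j, h1, h2, ← mulVec_mulVec, dotProduct_mulVec]

lemma rank_le {I : Type*} [Fintype I] (M : Fin N → Bool → Matrix (Fin w) (Fin w) K)
    (u v : Fin w → K) (j : ℕ) (x : I → Fin N → Bool)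
    (hdiag : ∀ R, roVal M u v (mix j (x R) (x R)) ≠ 0)
    (hoff : ∀ R R', R ≠ R' → roVal M u v (mix j (x R) (x R')) = 0) : Fintype.card I ≤ w := by
  classical
  have h1 : LinearIndependent K
      (fun R : I => u ᵥ* ((List.ofFn fun i => M i (x R i)).take j).prod) := by
    rw [Fintype.linearIndependent_iff]
    intro c hc R'
    have h2 := congrArg (fun z => z ⬝ᵥ (((List.ofFn fun i => M i (x R' i)).drop j).prod *ᵥ v)) hc
    simp only [zero_dotProduct] at h2
    rw [sum_dotProduct] at h2
    have h3 : ∀ R, (c R • (u ᵥ* ((List.ofFn fun i => M i (x R i)).take j).prod)) ⬝ᵥ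
        (((List.ofFn fun i => M i (x R' i)).drop j).prod *ᵥ v) =
        c R * roVal M u v (mix j (x R) (x R')) := by
      intro R
      rw [smul_dotProduct, roVal_mix, smul_eq_mul]
    simp only [h3] at h2
    rw [Finset.sum_eq_single R' (fun R _ hR => by rw [hoff R R' hR, mul_zero])
      (fun h => absurd (mem_univ _) h)] at h2
    rcases mul_eq_zero.1 h2 with h4 | h4
    · exact h4
    · exact absurd h4 (hdiag R')
  have h2 := h1.fintype_card_le_finrank
  rwa [Module.finrank_fintype_fun_eq_card, Fintype.card_fin] at h2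

end rank

/-! ### cuts of partitions -/

section cuts

variable {n t q N : ℕ} {e : Fin (t + 1) → Fin q → Fin n} {L : Finset (Fin n)}
  (A : Fin N ≃ {B : Finset (Fin n) // B.card ≤ t + 1})

/-- position in the order -/
noncomputable def ppos (B : Finset (Fin n)) : ℕ :=
  if h : B.card ≤ t + 1 then (A.symm ⟨B, h⟩ : ℕ) else 0

lemma ppos_apply (i : Fin N) : ppos A (A i).1 = i := by
  unfold ppos
  rw [dif_pos (A i).2]
  simp

lemma ppos_lt {B : Finset (Fin n)} (h : B.card ≤ t + 1) : ppos A B < N := by
  unfold ppos
  rw [dif_pos h]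
  exact (A.symm ⟨B, h⟩).2

lemma ppos_inj {B B' : Finset (Fin n)} (h : B.card ≤ t + 1) (h' : B'.card ≤ t + 1)
    (hB : ppos A B = ppos A B') : B = B' := by
  unfold ppos at hB
  rw [dif_pos h, dif_pos h'] at hB
  have := A.symm.injective (Fin.ext hB)
  exact congrArg Subtype.val this

/-- the partition into exactly `⌈n / s⌉` sets -/
def fam (e : Fin (t + 1) → Fin q → Fin n) (L : Finset (Fin n)) (σ : Sg t q) :
    Finset (Finset (Fin n)) := univ.image (trv e σ) ∪ if L = ∅ then ∅ else {L}

lemma Grid.trv_ne (hg : Grid e L) (σ : Sg t q) (i : Fin q) : trv e σ i ≠ L := by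
  intro h
  have h1 : e 0 (ext σ 0 i) ∈ trv e σ i := (hg.mem_trv σ i 0 _).2 rfl
  rw [h] at h1
  exact hg.notMem _ _ h1

lemma mem_fam {σ : Sg t q} {B : Finset (Fin n)} :
    B ∈ fam e L σ ↔ (∃ i, trv e σ i = B) ∨ (L ≠ ∅ ∧ B = L) := by
  unfold fam
  rw [mem_union, mem_image]
  constructor
  · rintro (⟨i, _, h⟩ | h)
    · exact Or.inl ⟨i, h⟩
    · split_ifs at h with h0
      · exact absurd h (notMem_empty _)
      · exact Or.inr ⟨h0, mem_singleton.1 h⟩
  · rintro (⟨i, h⟩ | ⟨h0, h⟩)
    · exact Or.inl ⟨i, mem_univ _, h⟩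
    · right
      rw [if_neg h0, mem_singleton]
      exact h

lemma fam_small (hL : L.card ≤ t + 1) {σ : Sg t q} {B : Finset (Fin n)} (hB : B ∈ fam e L σ) :
    B.card ≤ t + 1 := by
  rcases mem_fam.1 hB with ⟨i, rfl⟩ | ⟨_, rfl⟩
  · exact card_trv_le σ i
  · exact hL

/-- indices of the transversals before the cut -/
noncomputable def before (e : Fin (t + 1) → Fin q → Fin n) (j : ℕ) (σ : Sg t q) : Finset (Fin q) :=
  univ.filter fun i => ppos A (trv e σ i) < j

lemma exists_cut (hg : Grid e L) (σ : Sg t q) {h : ℕ} (hq : h ≤ q) :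
    ∃ j, j ≤ N ∧ (before A e j σ).card = h := by
  classical
  have hstep : ∀ j, (before A e (j + 1) σ).card ≤ (before A e j σ).card + 1 := by
    intro j
    have h1 : before A e (j + 1) σ ⊆ before A e j σ ∪
        univ.filter (fun i => ppos A (trv e σ i) = j) := by
      intro i hi
      unfold before at hi ⊢
      rw [mem_filter] at hi
      rw [mem_union, mem_filter, mem_filter]
      rcases Nat.lt_succ_iff_lt_or_eq.1 hi.2 with h2 | h2
      · exact Or.inl ⟨mem_univ _, h2⟩
      · exact Or.inr ⟨mem_univ _, h2⟩
    have h2 : (univ.filter (fun i => ppos A (trv e σ i) = j)).card ≤ 1 := by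
      rw [card_le_one]
      intro a ha b hb
      rw [mem_filter] at ha hb
      exact hg.trv_inj σ (ppos_inj A (card_trv_le σ a) (card_trv_le σ b) (ha.2.trans hb.2.symm))
    exact (card_le_card h1).trans ((card_union_le _ _).trans (Nat.add_le_add_left h2 _))
  have hN : (before A e N σ).card = q := by
    unfold before
    rw [filter_true_of_mem fun i _ => ppos_lt A (card_trv_le σ i), card_univ, Fintype.card_fin]
  have hex : ∃ j, h ≤ (before A e j σ).card := ⟨N, by rw [hN]; exact hq⟩
  refine ⟨Nat.find hex, Nat.find_min' hex (by rw [hN]; exact hq), ?_⟩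
  have h1 := Nat.find_spec hex
  rcases Nat.eq_zero_or_pos (Nat.find hex) with h0 | h0
  · rw [h0] at h1 ⊢
    have h2 : (before A e 0 σ).card = 0 := by
      unfold before
      rw [filter_false_of_mem fun i _ => Nat.not_lt_zero _, card_empty]
    omega
  · have h2 := Nat.find_min hex (Nat.sub_lt h0 Nat.one_pos)
    have h3 := hstep (Nat.find hex - 1)
    rw [Nat.sub_add_cancel h0] at h3
    omega

/-- the columns covered before the cut -/
noncomputable def cols (e : Fin (t + 1) → Fin q → Fin n) (j : ℕ) (σ : Sg t q) :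
    Fin (t + 1) → Finset (Fin q) := fun c => (before A e j σ).image (ext σ c)

lemma card_cols (j : ℕ) (σ : Sg t q) (c : Fin (t + 1)) :
    (cols A e j σ c).card = (before A e j σ).card :=
  card_image_of_injective _ (ext σ c).injective

lemma cols_zero (j : ℕ) (σ : Sg t q) : cols A e j σ 0 = before A e j σ := by
  unfold cols
  have : (ext σ 0 : Equiv.Perm (Fin q)) = 1 := rfl
  rw [this]
  ext i
  simp

lemma card_fiber_le (j h : ℕ) (S : Finset (Sg t q)) (hS : ∀ σ ∈ S, (before A e j σ).card = h)
    (R : Fin (t + 1) → Finset (Fin q)) :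
    (S.filter fun σ => cols A e j σ = R).card ≤ (h.factorial * (q - h).factorial) ^ t := by
  classical
  rcases (S.filter fun σ => cols A e j σ = R).eq_empty_or_nonempty with h0 | ⟨σ0, hσ0⟩
  · rw [h0, card_empty]; exact Nat.zero_le _
  rw [mem_filter] at hσ0
  have hR : ∀ c, (R c).card = h := by
    intro c
    rw [← hσ0.2, card_cols, hS σ0 hσ0.1]
  set f : Fin t → Fin q → Fin 3 := fun c x => if x ∈ R c.succ then 0 else 1 with hf
  set g : Fin q → Fin 3 := fun x => if x ∈ R 0 then 0 else 1 with hgdef
  have h1 : (S.filter fun σ => cols A e j σ = R) ⊆ Fintype.piFinset fun c =>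
      univ.filter fun π : Equiv.Perm (Fin q) => ∀ i, f c (π i) = g i := by
    intro σ hσ
    rw [mem_filter] at hσ
    rw [Fintype.mem_piFinset]
    intro c
    rw [mem_filter]
    refine ⟨mem_univ _, fun i => ?_⟩
    have h2 : σ c i ∈ R c.succ ↔ i ∈ R 0 := by
      rw [← hσ.2, cols_zero]
      unfold cols
      rw [mem_image]
      have h3 : (ext σ c.succ : Equiv.Perm (Fin q)) = σ c := rfl
      rw [h3]
      constructor
      · rintro ⟨i', hi', hii⟩
        rw [← (σ c).injective hii]
        exact hi'
      · intro hi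
        exact ⟨i, hi, rfl⟩
    rw [hf, hgdef]
    simp only [h2]
  refine (card_le_card h1).trans ?_
  rw [Fintype.card_piFinset]
  have h2 : ∀ c : Fin t, (univ.filter fun π : Equiv.Perm (Fin q) => ∀ i, f c (π i) = g i).card ≤
      h.factorial * (q - h).factorial := by
    intro c
    have h3 : (univ.filter fun π : Equiv.Perm (Fin q) => ∀ i, f c (π i) = g i).card ≤
        ∏ c', ((univ.filter fun a => f c a = c').card).factorial := by
      convert card_perm_le (f c) g
    refine h3.trans (le_of_eq ?_)
    rw [Fin.prod_univ_three]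
    have e0 : (univ.filter fun x => f c x = 0) = R c.succ := by
      ext x
      rw [mem_filter, hf]
      by_cases hx : x ∈ R c.succ <;> simp [hx]
    have e1 : (univ.filter fun x => f c x = 1) = (R c.succ)ᶜ := by
      ext x
      rw [mem_filter, hf, mem_compl]
      by_cases hx : x ∈ R c.succ <;> simp [hx]
    have e2 : (univ.filter fun x => f c x = 2) = ∅ := by
      rw [filter_eq_empty_iff]
      intro x _
      rw [hf]
      by_cases hx : x ∈ R c.succ <;> simp [hx]
    rw [e0, e1, e2, card_compl, hR, Fintype.card_fin, card_empty]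
    simp
  calc ∏ c : Fin t, (univ.filter fun π : Equiv.Perm (Fin q) => ∀ i, f c (π i) = g i).card
      ≤ ∏ _c : Fin t, (h.factorial * (q - h).factorial) := prod_le_prod' fun c _ => h2 c
    _ = _ := by rw [prod_const, card_univ, Fintype.card_fin]

/-- exchange at a cut -/
noncomputable def mixF (e : Fin (t + 1) → Fin q → Fin n) (L : Finset (Fin n)) (j : ℕ)
    (σ σ' : Sg t q) : Finset (Finset (Fin n)) :=
  ((fam e L σ).filter fun B => ppos A B < j) ∪ ((fam e L σ').filter fun B => ¬ ppos A B < j)

lemma card_filter_fam (hg : Grid e L) (σ : Sg t q) (P : Finset (Fin n) → Prop) [DecidablePred P] :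
    ((fam e L σ).filter P).card = (univ.filter fun i => P (trv e σ i)).card +
      if L ≠ ∅ ∧ P L then 1 else 0 := by
  classical
  have h1 : (fam e L σ).filter P = ((univ.filter fun i => P (trv e σ i)).image (trv e σ)) ∪
      if L ≠ ∅ ∧ P L then {L} else ∅ := by
    ext B
    rw [mem_filter, mem_fam, mem_union, mem_image]
    constructor
    · rintro ⟨⟨i, rfl⟩ | ⟨h0, rfl⟩, hP⟩
      · exact Or.inl ⟨i, mem_filter.2 ⟨mem_univ _, hP⟩, rfl⟩
      · right
        rw [if_pos ⟨h0, hP⟩]
        exact mem_singleton_self _
    · rintro (⟨i, hi, rfl⟩ | h)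
      · exact ⟨Or.inl ⟨i, rfl⟩, (mem_filter.1 hi).2⟩
      · split_ifs at h with h0
        · rw [mem_singleton] at h
          subst h
          exact ⟨Or.inr ⟨h0.1, rfl⟩, h0.2⟩
        · exact absurd h (notMem_empty _)
  rw [h1, card_union_of_disjoint, card_image_of_injective _ (hg.trv_inj σ)]
  · congr 1
    split_ifs
    · exact card_singleton _
    · exact card_empty
  · rw [disjoint_left]
    intro B hB hB'
    rw [mem_image] at hB
    obtain ⟨i, _, rfl⟩ := hB
    split_ifs at hB'
    · exact hg.trv_ne σ i (mem_singleton.1 hB')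
    · exact absurd hB' (notMem_empty _)

lemma card_mixF (hg : Grid e L) {j h : ℕ} {σ σ' : Sg t q} (hσ : (before A e j σ).card = h)
    (hσ' : (before A e j σ').card = h) :
    (mixF A e L j σ σ').card = q + if L = ∅ then 0 else 1 := by
  classical
  unfold mixF
  rw [card_union_of_disjoint, card_filter_fam hg, card_filter_fam hg]
  · have h1 : (univ.filter fun i => ppos A (trv e σ i) < j).card = h := hσ
    have h2 : (univ.filter fun i => ¬ ppos A (trv e σ' i) < j).card = q - h := by
      have h3 := card_filter_add_card_filter_not (s := (univ : Finset (Fin q)))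
        (fun i => ppos A (trv e σ' i) < j)
      have h4 : (univ.filter fun i => ppos A (trv e σ' i) < j).card = h := hσ'
      rw [card_univ, Fintype.card_fin] at h3
      omega
    have h5 : h ≤ q := by
      rw [← h1]
      exact (card_le_univ _).trans (by rw [Fintype.card_fin])
    rw [h1, h2]
    by_cases h0 : L = ∅
    · simp only [h0, ne_eq, not_true_eq_false, false_and, if_false, if_true]
      omega
    · by_cases h6 : ppos A L < j
      · simp only [h0, h6, ne_eq, not_false_eq_true, true_and, if_true, not_true_eq_false,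
          if_false]
        omega
      · simp only [h0, h6, ne_eq, not_false_eq_true, true_and, if_true, if_false]
        omega
  · rw [disjoint_left]
    intro B hB hB'
    exact (mem_filter.1 hB').2 (mem_filter.1 hB).2

/-- **The lower bound**, explicit form. -/
theorem ordered_bound (hg : Grid e L) (hL : L.card ≤ t + 1) {k h w : ℕ}
    (hk : k = q + if L = ∅ then 0 else 1) (hq : h ≤ q)
    {K : Type*} [Field K] (M : Fin N → Bool → Matrix (Fin w) (Fin w) K) (u v : Fin w → K)
    (hM : ∀ F : Finset (Finset (Fin n)), (∀ B ∈ F, B.card ≤ t + 1) → F.card = k →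
      (roVal M u v (fun i => decide ((A i).1 ∈ F)) ≠ 0 ↔ ∀ x, ∃ B ∈ F, x ∈ B)) :
    (q.choose h) ^ t ≤ (N + 1) * w := by
  classical
  choose cut hcutN hcut using fun σ : Sg t q => exists_cut A hg σ hq
  set Sj : ℕ → Finset (Sg t q) := fun j => univ.filter fun σ => cut σ = j with hSj
  have hcard : ∀ j, ∀ σ ∈ Sj j, (before A e j σ).card = h := by
    intro j σ hσ
    rw [hSj, mem_filter] at hσ
    rw [← hσ.2]
    exact hcut σ
  -- the number of different column sets at a cut
  have himg : ∀ j, ((Sj j).image (cols A e j)).card ≤ w := by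
    intro j
    have hrep : ∀ R : {R // R ∈ (Sj j).image (cols A e j)}, ∃ σ ∈ Sj j, cols A e j σ = R.1 :=
      fun R => mem_image.1 R.2
    choose rep hrep1 hrep2 using hrep
    have hmixeq : ∀ σ σ' : Sg t q, mix j (fun i => decide ((A i).1 ∈ fam e L σ))
        (fun i => decide ((A i).1 ∈ fam e L σ')) =
        fun i => decide ((A i).1 ∈ mixF A e L j σ σ') := by
      intro σ σ'
      funext i
      unfold mix
      have h1 : ((A i).1 ∈ mixF A e L j σ σ') ↔
          if (i : ℕ) < j then (A i).1 ∈ fam e L σ else (A i).1 ∈ fam e L σ' := by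
        unfold mixF
        rw [mem_union, mem_filter, mem_filter, ppos_apply]
        split_ifs with h2
        · simp [h2]
        · simp [h2]
      by_cases h2 : (i : ℕ) < j
      · rw [if_pos h2] at h1
        simp only [h2, if_true]
        exact decide_eq_decide.2 h1.symm
      · rw [if_neg h2] at h1
        simp only [h2, if_false]
        exact decide_eq_decide.2 h1.symm
    have hsmall : ∀ σ σ' : Sg t q, ∀ B ∈ mixF A e L j σ σ', B.card ≤ t + 1 := by
      intro σ σ' B hB
      unfold mixF at hB
      rw [mem_union, mem_filter, mem_filter] at hB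
      rcases hB with hB | hB
      · exact fam_small hL hB.1
      · exact fam_small hL hB.1
    have h1 := rank_le (I := {R // R ∈ (Sj j).image (cols A e j)}) M u v j
      (fun R => fun i => decide ((A i).1 ∈ fam e L (rep R))) (by
        intro R
        rw [hmixeq, hM _ (hsmall _ _) (by
          rw [card_mixF A hg (hcard j _ (hrep1 R)) (hcard j _ (hrep1 R)), hk])]
        intro x
        have hmem : ∀ B, B ∈ fam e L (rep R) → B ∈ mixF A e L j (rep R) (rep R) := by
          intro B hB
          unfold mixF
          rw [mem_union, mem_filter, mem_filter]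
          by_cases h2 : ppos A B < j
          · exact Or.inl ⟨hB, h2⟩
          · exact Or.inr ⟨hB, h2⟩
        rcases hg.surj x with hx | ⟨c, y, rfl⟩
        · exact ⟨L, hmem L (mem_fam.2 (Or.inr ⟨Finset.ne_empty_of_mem hx, rfl⟩)), hx⟩
        · refine ⟨trv e (rep R) ((ext (rep R) c).symm y), hmem _ (mem_fam.2 (Or.inl ⟨_, rfl⟩)), ?_⟩
          rw [hg.mem_trv]
          simp) (by
        intro R R' hRR
        rw [hmixeq]
        by_contra hcon
        have h2 := (hM _ (hsmall (rep R) (rep R')) (by
          rw [card_mixF A hg (hcard j _ (hrep1 R)) (hcard j _ (hrep1 R')), hk])).1 hcon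
        obtain ⟨c, hc⟩ : ∃ c, R.1 c ≠ R'.1 c := by
          by_contra h3
          push Not at h3
          exact hRR (Subtype.ext (funext h3))
        have hcR : (R.1 c).card = h := by
          rw [← hrep2 R, card_cols, hcard j _ (hrep1 R)]
        have hcR' : (R'.1 c).card = h := by
          rw [← hrep2 R', card_cols, hcard j _ (hrep1 R')]
        have h3 : ∃ x, x ∈ R'.1 c ∧ x ∉ R.1 c := by
          by_contra h4
          push Not at h4
          exact hc (eq_of_subset_of_card_le h4 (by rw [hcR, hcR'])).symm
        obtain ⟨x, hx', hx⟩ := h3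
        obtain ⟨B, hB, hxB⟩ := h2 (e c x)
        rw [← hrep2 R] at hx
        rw [← hrep2 R'] at hx'
        unfold cols at hx hx'
        rw [mem_image] at hx hx'
        obtain ⟨i', hi', hxi'⟩ := hx'
        unfold mixF at hB
        rw [mem_union, mem_filter, mem_filter] at hB
        rcases hB with ⟨hB, hBj⟩ | ⟨hB, hBj⟩
        · rcases mem_fam.1 hB with ⟨i, rfl⟩ | ⟨_, rfl⟩
          · rw [hg.mem_trv] at hxB
            exact hx ⟨i, mem_filter.2 ⟨mem_univ _, hBj⟩, hxB⟩
          · exact hg.notMem _ _ hxB
        · rcases mem_fam.1 hB with ⟨i, rfl⟩ | ⟨_, rfl⟩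
          · rw [hg.mem_trv] at hxB
            have h5 : i = i' := (ext (rep R') c).injective (hxB.trans hxi'.symm)
            subst h5
            exact hBj (mem_filter.1 hi').2
          · exact hg.notMem _ _ hxB)
    rwa [Fintype.card_coe] at h1
  have hcount : (q.factorial) ^ t ≤ (N + 1) * (w * (h.factorial * (q - h).factorial) ^ t) := by
    have h1 : (univ : Finset (Sg t q)) ⊆ (range (N + 1)).biUnion Sj := by
      intro σ _
      rw [mem_biUnion]
      exact ⟨cut σ, mem_range.2 (by have := hcutN σ; omega), by rw [hSj, mem_filter]; simp⟩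
    have h2 := (card_le_card h1).trans card_biUnion_le
    have h3 : (univ : Finset (Sg t q)).card = (q.factorial) ^ t := by
      rw [card_univ]; simp [Fintype.card_perm]
    rw [h3] at h2
    refine h2.trans ?_
    calc ∑ j ∈ range (N + 1), (Sj j).card
        ≤ ∑ _j ∈ range (N + 1), (w * (h.factorial * (q - h).factorial) ^ t) := by
          refine sum_le_sum fun j _ => ?_
          have h4 := card_le_mul_card_image (f := cols A e j) (Sj j)
            ((h.factorial * (q - h).factorial) ^ t)
            (fun R _ => card_fiber_le A j h (Sj j) (hcard j) R)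
          rw [mul_comm w]
          exact h4.trans (Nat.mul_le_mul_left _ (himg j))
      _ = _ := by rw [sum_const, card_range, smul_eq_mul]
  have hfac : q.choose h * (h.factorial * (q - h).factorial) = q.factorial := by
    rw [← mul_assoc]; exact Nat.choose_mul_factorial_mul_factorial hq
  have hpos : 0 < (h.factorial * (q - h).factorial) ^ t :=
    pow_pos (Nat.mul_pos (Nat.factorial_pos _) (Nat.factorial_pos _)) _
  refine Nat.le_of_mul_le_mul_right ?_ hpos
  rw [← mul_pow, hfac]
  exact hcount.trans (le_of_eq (by ring))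

end cuts

end Pool.Agent.T9h48.SC
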