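import Mathlib

/-!
# Counting permutations which respect three-colourings up to few mistakes
-/

open Finset

set_option autoImplicit false

namespace Pool.Agent.T9h48.SC

lemma fact_two (x z k : ℕ) (h : z ≤ x) :
    x.factorial * (z + k).factorial ≤ (x + k).factorial * z.factorial := by
  induction k with
  | zero => simp
  | succ k ih =>
    rw [← add_assoc, ← add_assoc, Nat.factorial_succ, Nat.factorial_succ]
    calc x.factorial * ((z + k + 1) * (z + k).factorial)
        = (z + k + 1) * (x.factorial * (z + k).factorial) := by ring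
      _ ≤ (x + k + 1) * ((x + k).factorial * z.factorial) := Nat.mul_le_mul (by omega) ih
      _ = (x + k + 1) * (x + k).factorial * z.factorial := by ring

lemma fact_two' {x y τ : ℕ} (hx : x ≤ τ) (hy : y ≤ τ) (h : τ ≤ x + y) :
    x.factorial * y.factorial ≤ τ.factorial * (x + y - τ).factorial := by
  have h1 := fact_two x (x + y - τ) (τ - x) (by omega)
  rw [show x + y - τ + (τ - x) = y by omega, show x + (τ - x) = τ by omega] at h1
  exact h1

lemma fact_add (a b : ℕ) : a.factorial * b.factorial ≤ (a + b).factorial :=
  Nat.factorial_mul_factorial_dvd_factorial_add a b |> Nat.le_of_dvd (Nat.factorial_pos _)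

lemma fact_three {a b c τ : ℕ} (ha : a ≤ τ) (hb : b ≤ τ) (hc : c ≤ τ) (h1 : τ ≤ a + b + c) :
    a.factorial * b.factorial * c.factorial ≤ τ.factorial * (a + b + c - τ).factorial := by
  rcases le_total (a + b) τ with h | h
  · calc a.factorial * b.factorial * c.factorial ≤ (a + b).factorial * c.factorial :=
        Nat.mul_le_mul_right _ (fact_add a b)
      _ ≤ _ := fact_two' h hc h1
  · calc a.factorial * b.factorial * c.factorial ≤
        τ.factorial * (a + b - τ).factorial * c.factorial :=
        Nat.mul_le_mul_right _ (fact_two' ha hb h)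
      _ = τ.factorial * ((a + b - τ).factorial * c.factorial) := by ring
      _ ≤ τ.factorial * (a + b - τ + c).factorial := Nat.mul_le_mul_left _ (fact_add _ _)
      _ = _ := by congr 2; omega

variable {α : Type*} [Fintype α] [DecidableEq α]

lemma card_perm_le (f g : α → Fin 3) :
    (univ.filter fun π : Equiv.Perm α => ∀ i, f (π i) = g i).card ≤
      ∏ c, ((univ.filter fun a => f a = c).card).factorial := by
  classical
  rcases (univ.filter fun π : Equiv.Perm α => ∀ i, f (π i) = g i).eq_empty_or_nonempty with h | h
  · rw [h, card_empty]; exact Nat.zero_le _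
  obtain ⟨π0, h0⟩ := h
  rw [mem_filter] at h0
  have h1 := DomMulAct.stabilizer_card f
  have h2 : ∏ i, (Fintype.card {a // f a = i}).factorial =
      ∏ c, ((univ.filter fun a => f a = c).card).factorial := by
    refine prod_congr rfl fun c _ => ?_
    rw [Fintype.card_subtype]
  rw [← h2, ← h1, Fintype.card_subtype]
  refine card_le_card_of_injOn (fun π => π * π0⁻¹) ?_ ?_
  · intro π hπ
    rw [mem_coe, mem_filter] at hπ
    rw [mem_coe, mem_filter]
    refine ⟨mem_univ _, ?_⟩
    funext a
    have h3 := hπ.2 (π0⁻¹ a)
    have h4 := h0.2 (π0⁻¹ a)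
    simp only [Function.comp, Equiv.Perm.mul_apply]
    rw [h3, ← h4]
    simp
  · intro π _ π' _ h
    exact mul_right_cancel h

/-- the number of agreements -/
def agree (f g : α → Fin 3) (π : Equiv.Perm α) : ℕ := (univ.filter fun i => f (π i) = g i).card

lemma sum_pow_agree (f g : α → Fin 3) (K : ℕ) :
    ∑ π : Equiv.Perm α, K ^ agree f g π ≤
      (∏ c, ((univ.filter fun a => f a = c).card).factorial) * (K + 2) ^ Fintype.card α := by
  classical
  set S := ∏ c, ((univ.filter fun a => f a = c).card).factorial
  have h1 : ∑ π : Equiv.Perm α, K ^ agree f g π =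
      ∑ κ : α → Fin 3, ∑ π ∈ univ.filter (fun π : Equiv.Perm α => (fun i => f (π i)) = κ),
        K ^ agree f g π := (sum_fiberwise _ _ _).symm
  have h2 : ∀ κ : α → Fin 3, ∑ π ∈ univ.filter (fun π : Equiv.Perm α => (fun i => f (π i)) = κ),
      K ^ agree f g π ≤ S * K ^ (univ.filter fun i => κ i = g i).card := by
    intro κ
    have h3 : ∀ π ∈ univ.filter (fun π : Equiv.Perm α => (fun i => f (π i)) = κ),
        K ^ agree f g π = K ^ (univ.filter fun i => κ i = g i).card := by
      intro π hπ
      rw [mem_filter] at hπ
      rw [← hπ.2]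
      rfl
    rw [sum_congr rfl h3, sum_const, smul_eq_mul]
    refine Nat.mul_le_mul_right _ ?_
    have h4 := card_perm_le f κ
    refine le_trans (le_of_eq ?_) h4
    congr 1
    ext π
    simp only [mem_filter, mem_univ, true_and]
    exact funext_iff
  have h5 : ∑ κ : α → Fin 3, K ^ (univ.filter fun i => κ i = g i).card =
      (K + 2) ^ Fintype.card α := by
    have h6 : ∀ κ : α → Fin 3, K ^ (univ.filter fun i => κ i = g i).card =
        ∏ i, (if κ i = g i then K else 1) := by
      intro κ
      rw [prod_ite, prod_const, prod_const_one, mul_one]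
    simp_rw [h6]
    have h7 := Fintype.prod_sum (fun (i : α) (c : Fin 3) => if c = g i then K else 1)
    rw [← h7]
    have h8 : ∀ i : α, ∑ c : Fin 3, (if c = g i then K else 1) = K + 2 := by
      intro i
      rw [Fin.sum_univ_three]
      generalize g i = c
      fin_cases c <;> simp <;> omega
    simp_rw [h8]
    rw [prod_const, card_univ]
  rw [h1, ← h5, mul_sum]
  exact sum_le_sum fun κ _ => h2 κ

/-- the permutations with at most `d` mistakes -/
lemma card_good_le (f g : α → Fin 3) (K d : ℕ) (hK : 1 ≤ K) :
    K ^ (Fintype.card α - d) *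
      (univ.filter fun π : Equiv.Perm α => (univ.filter fun i => f (π i) ≠ g i).card ≤ d).card ≤
      (∏ c, ((univ.filter fun a => f a = c).card).factorial) * (K + 2) ^ Fintype.card α := by
  classical
  refine le_trans ?_ (sum_pow_agree f g K)
  refine le_trans ?_ (sum_le_sum_of_subset (subset_univ
    (univ.filter fun π : Equiv.Perm α => (univ.filter fun i => f (π i) ≠ g i).card ≤ d)))
  rw [mul_comm, ← smul_eq_mul, ← sum_const]
  refine sum_le_sum fun π hπ => Nat.pow_le_pow_right hK ?_
  rw [mem_filter] at hπ
  have h1 := card_filter_add_card_filter_not (s := (univ : Finset α)) (fun i => f (π i) = g i)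
  rw [card_univ] at h1
  unfold agree
  have h2 : (univ.filter fun i => ¬ f (π i) = g i).card ≤ d := hπ.2
  omega

end Pool.Agent.T9h48.SC
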