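import Mathlib

/-!
# Tropical circuits for the set cover problem: definitions
-/

open Finset
open scoped ENNReal

set_option autoImplicit false

namespace Pool.Agent.T9h48.SC

/-- A `(min, +)` circuit over the variables `x_v`, `v : V`. The operands of the gates and the
output are variables, nonnegative constants (`∞` is allowed) or gates; `isAdd i` says that the gate
`i` is an addition gate, the other gates are minimum gates. -/
structure TropCircuit (V : Type) where
  size : ℕ
  isAdd : Fin size → Bool
  left : Fin size → V ⊕ ℝ≥0∞ ⊕ Fin size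
  right : Fin size → V ⊕ ℝ≥0∞ ⊕ Fin size
  out : V ⊕ ℝ≥0∞ ⊕ Fin size
  acyclic : ∀ i j, (left i = Sum.inr (Sum.inr j) ∨ right i = Sum.inr (Sum.inr j)) → j < i

namespace TropCircuit

variable {V : Type}

/-- The value of an operand, if the variables have the values `w` and the gates the values `val`. -/
def nodeVal {m : ℕ} (w : V → ℝ≥0∞) (val : Fin m → ℝ≥0∞) : V ⊕ ℝ≥0∞ ⊕ Fin m → ℝ≥0∞ :=
  Sum.elim w (Sum.elim id val)

/-- `val` are the values of the gates on the input `w`. -/
def IsRun (C : TropCircuit V) (w : V → ℝ≥0∞) (val : Fin C.size → ℝ≥0∞) : Prop :=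
  ∀ i, val i = if C.isAdd i = true then nodeVal w val (C.left i) + nodeVal w val (C.right i)
    else min (nodeVal w val (C.left i)) (nodeVal w val (C.right i))

/-- The number of addition gates. -/
def numAdd (C : TropCircuit V) : ℕ := (univ.filter fun i => C.isAdd i = true).card

end TropCircuit

/-- The minimal number of members of `F` which cover the ground set, `∞` if there is no cover. -/
noncomputable def opt {n : ℕ} (F : Finset (Finset (Fin n))) : ℝ≥0∞ :=
  ⨅ G : Finset (Finset (Fin n)), ⨅ _ : G ⊆ F ∧ ∀ u, ∃ A ∈ G, u ∈ A, (G.card : ℝ≥0∞)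

/-- The circuit `C` approximates set cover on the family `F` within the factor `ρ`. -/
def TropCircuit.Approximates {n : ℕ} (C : TropCircuit (Finset (Fin n))) (ρ : ℝ≥0∞)
    (F : Finset (Finset (Fin n))) : Prop :=
  ∃ val, C.IsRun (fun A => if A ∈ F then 1 else ⊤) val ∧
    opt F ≤ TropCircuit.nodeVal (fun A => if A ∈ F then 1 else ⊤) val C.out ∧
    TropCircuit.nodeVal (fun A => if A ∈ F then 1 else ⊤) val C.out ≤ ρ * opt F

end Pool.Agent.T9h48.SC
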