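import Pool.Agent.T9h48.SC.Core
import Pool.Agent.T9h48.SC.TropDefs

/-!
# Tropical circuits for the set cover problem
-/

open Finset
open scoped ENNReal

set_option autoImplicit false

namespace Pool.Agent.T9h48.SC

namespace TropCircuit

variable {V : Type}

variable (C : TropCircuit V)

/-- the multisets of variables of the monomials with finite coefficient -/
inductive Produces : V ⊕ ℝ≥0∞ ⊕ Fin C.size → Multiset V → Prop
  | var (x : V) : Produces (Sum.inl x) {x}
  | const (c : ℝ≥0∞) : c ≠ ⊤ → Produces (Sum.inr (Sum.inl c)) 0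
  | add (i : Fin C.size) (M N : Multiset V) : C.isAdd i = true → Produces (C.left i) M →
      Produces (C.right i) N → Produces (Sum.inr (Sum.inr i)) (M + N)
  | minl (i : Fin C.size) (M : Multiset V) : ¬ C.isAdd i = true → Produces (C.left i) M →
      Produces (Sum.inr (Sum.inr i)) M
  | minr (i : Fin C.size) (M : Multiset V) : ¬ C.isAdd i = true → Produces (C.right i) M →
      Produces (Sum.inr (Sum.inr i)) M

/-- contexts -/
inductive Ctx : V ⊕ ℝ≥0∞ ⊕ Fin C.size → Multiset V → Prop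
  | out : Ctx C.out 0
  | addl (i : Fin C.size) (R M : Multiset V) : C.isAdd i = true → Ctx (Sum.inr (Sum.inr i)) R →
      C.Produces (C.right i) M → Ctx (C.left i) (M + R)
  | addr (i : Fin C.size) (R M : Multiset V) : C.isAdd i = true → Ctx (Sum.inr (Sum.inr i)) R →
      C.Produces (C.left i) M → Ctx (C.right i) (M + R)
  | minl (i : Fin C.size) (R : Multiset V) : ¬ C.isAdd i = true → Ctx (Sum.inr (Sum.inr i)) R →
      Ctx (C.left i) R
  | minr (i : Fin C.size) (R : Multiset V) : ¬ C.isAdd i = true → Ctx (Sum.inr (Sum.inr i)) R →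
      Ctx (C.right i) R

variable {C}

lemma Ctx.produces {x : V ⊕ ℝ≥0∞ ⊕ Fin C.size} {R : Multiset V} (h : C.Ctx x R) :
    ∀ M, C.Produces x M → C.Produces C.out (M + R) := by
  induction h with
  | out => intro M hM; rw [add_zero]; exact hM
  | addl i R N hi _ hN ih =>
    intro M hM
    have := ih _ (Produces.add i M N hi hM hN)
    rwa [add_assoc] at this
  | addr i R N hi _ hN ih =>
    intro M hM
    have := ih _ (Produces.add i N M hi hN hM)
    rwa [add_comm N M, add_assoc] at this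
  | minl i R hi _ ih =>
    intro M hM
    exact ih _ (Produces.minl i M hi hM)
  | minr i R hi _ ih =>
    intro M hM
    exact ih _ (Produces.minr i M hi hM)

lemma Produces.finite {x : V ⊕ ℝ≥0∞ ⊕ Fin C.size} {M : Multiset V} (h : C.Produces x M)
    {w : V → ℝ≥0∞} {val : Fin C.size → ℝ≥0∞} (hv : C.IsRun w val) :
    (∀ v ∈ M, w v ≠ ⊤) → nodeVal w val x ≠ ⊤ := by
  induction h with
  | var x => intro h; exact h x (Multiset.mem_singleton_self x)
  | const c hc => intro _; exact hc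
  | add i M N hi _ _ ih1 ih2 =>
    intro h
    have h1 := ih1 fun v hv => h v (Multiset.mem_add.2 (Or.inl hv))
    have h2 := ih2 fun v hv => h v (Multiset.mem_add.2 (Or.inr hv))
    have h3 := hv i
    rw [if_pos hi] at h3
    change val i ≠ ⊤
    rw [h3]
    exact ENNReal.add_ne_top.2 ⟨h1, h2⟩
  | minl i M hi _ ih =>
    intro h
    have h1 := ih h
    have h3 := hv i
    rw [if_neg hi] at h3
    change val i ≠ ⊤
    rw [h3]
    exact ne_top_of_le_ne_top h1 (min_le_left _ _)
  | minr i M hi _ ih =>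
    intro h
    have h1 := ih h
    have h3 := hv i
    rw [if_neg hi] at h3
    change val i ≠ ⊤
    rw [h3]
    exact ne_top_of_le_ne_top h1 (min_le_right _ _)

lemma attain_aux {w : V → ℝ≥0∞} {val : Fin C.size → ℝ≥0∞} (hv : C.IsRun w val) (m : ℕ) :
    ∀ i : Fin C.size, (i : ℕ) < m → val i ≠ ⊤ →
      ∃ M, C.Produces (Sum.inr (Sum.inr i)) M ∧ (M.map w).sum ≤ val i := by
  induction m with
  | zero => intro i hi; omega
  | succ m ih =>
    intro i hi hfin
    have hnode : ∀ x : V ⊕ ℝ≥0∞ ⊕ Fin C.size, (∀ j, x = Sum.inr (Sum.inr j) → j < i) →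
        nodeVal w val x ≠ ⊤ → ∃ M, C.Produces x M ∧ (M.map w).sum ≤ nodeVal w val x := by
      intro x hx hx'
      rcases x with x | c | j
      · exact ⟨{x}, Produces.var x, by simp [nodeVal]⟩
      · exact ⟨0, Produces.const c hx', by simp⟩
      · have hj := hx j rfl
        exact ih j (by have : (j : ℕ) < i := hj; omega) hx'
    have h3 := hv i
    by_cases hi : C.isAdd i = true
    · rw [if_pos hi] at h3
      rw [h3] at hfin
      obtain ⟨f1, f2⟩ := ENNReal.add_ne_top.1 hfin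
      obtain ⟨M, hM, hM'⟩ := hnode _ (fun j hj => C.acyclic i j (Or.inl hj)) f1
      obtain ⟨N, hN, hN'⟩ := hnode _ (fun j hj => C.acyclic i j (Or.inr hj)) f2
      refine ⟨M + N, Produces.add i M N hi hM hN, ?_⟩
      rw [h3, Multiset.map_add, Multiset.sum_add]
      exact add_le_add hM' hN'
    · rw [if_neg hi] at h3
      rcases le_total (nodeVal w val (C.left i)) (nodeVal w val (C.right i)) with h | h
      · rw [min_eq_left h] at h3
        rw [h3] at hfin
        obtain ⟨M, hM, hM'⟩ := hnode _ (fun j hj => C.acyclic i j (Or.inl hj)) hfin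
        exact ⟨M, Produces.minl i M hi hM, by rw [h3]; exact hM'⟩
      · rw [min_eq_right h] at h3
        rw [h3] at hfin
        obtain ⟨M, hM, hM'⟩ := hnode _ (fun j hj => C.acyclic i j (Or.inr hj)) hfin
        exact ⟨M, Produces.minr i M hi hM, by rw [h3]; exact hM'⟩

lemma attain {w : V → ℝ≥0∞} {val : Fin C.size → ℝ≥0∞} (hv : C.IsRun w val)
    (x : V ⊕ ℝ≥0∞ ⊕ Fin C.size) (hx : nodeVal w val x ≠ ⊤) :
    ∃ M, C.Produces x M ∧ (M.map w).sum ≤ nodeVal w val x := by
  rcases x with x | c | j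
  · exact ⟨{x}, Produces.var x, by simp [nodeVal]⟩
  · exact ⟨0, Produces.const c hx, by simp⟩
  · exact attain_aux hv _ j (Nat.lt_succ_self _) hx

/-- a heavy monomial passes through a balanced addition gate -/
lemma Produces.heavy {x : V ⊕ ℝ≥0∞ ⊕ Fin C.size} {M : Multiset V} (h : C.Produces x M) {τ : ℕ}
    (hτ : 1 ≤ τ) : ∀ R, C.Ctx x R → τ < M.card →
    ∃ i, C.isAdd i = true ∧ ∃ M1 M2 R', C.Produces (C.left i) M1 ∧ C.Produces (C.right i) M2 ∧
      C.Ctx (Sum.inr (Sum.inr i)) R' ∧ M1 + M2 + R' = M + R ∧ M1.card ≤ τ ∧ M2.card ≤ τ ∧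
      τ < M1.card + M2.card := by
  induction h with
  | var x => intro R _ h; rw [Multiset.card_singleton] at h; omega
  | const c _ => intro R _ h; rw [Multiset.card_zero] at h; omega
  | add i M N hi hM hN ih1 ih2 =>
    intro R hR h
    rcases Nat.lt_or_ge τ M.card with h1 | h1
    · obtain ⟨k, hk, M1, M2, R', a1, a2, a3, a4, a5⟩ := ih1 _ (Ctx.addl i R N hi hR hN) h1
      exact ⟨k, hk, M1, M2, R', a1, a2, a3, by rw [a4, add_assoc], a5⟩
    rcases Nat.lt_or_ge τ N.card with h2 | h2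
    · obtain ⟨k, hk, M1, M2, R', a1, a2, a3, a4, a5⟩ := ih2 _ (Ctx.addr i R M hi hR hM) h2
      exact ⟨k, hk, M1, M2, R', a1, a2, a3, by rw [a4, ← add_assoc, add_comm N M], a5⟩
    · rw [Multiset.card_add] at h
      exact ⟨i, hi, M, N, R, hM, hN, hR, rfl, h1, h2, h⟩
  | minl i M hi hM ih =>
    intro R hR h
    exact ih R (Ctx.minl i R hi hR) h
  | minr i M hi hM ih =>
    intro R hR h
    exact ih R (Ctx.minr i R hi hR) h

end TropCircuit

lemma exists_cover_of_opt {n : ℕ} {F : Finset (Finset (Fin n))} (h : opt F ≠ ⊤) :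
    ∃ G ⊆ F, ∀ u, ∃ A ∈ G, u ∈ A := by
  by_contra hcon
  push Not at hcon
  apply h
  unfold opt
  simp only [iInf_eq_top]
  rintro G ⟨h1, h2⟩
  obtain ⟨u, hu⟩ := hcon G h1
  obtain ⟨A, hA, hu'⟩ := h2 u
  exact absurd hu' (hu A hA)

lemma opt_le {n : ℕ} {F : Finset (Finset (Fin n))} (h : ∀ u, ∃ A ∈ F, u ∈ A) :
    opt F ≤ F.card := iInf₂_le_of_le F ⟨Subset.refl _, h⟩ le_rfl

open TropCircuit in
/-- **The lower bound**, explicit form. -/
theorem trop_bound {n t q : ℕ} {e : Fin (t + 1) → Fin q → Fin n} {L : Finset (Fin n)}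
    (h : Grid e L) (hL : L.card ≤ t + 1) (C : TropCircuit (Finset (Fin n))) (ρ : ℝ≥0∞) (T : ℕ)
    (hT : ∀ m : ℕ, (m : ℝ≥0∞) ≤ ρ * ((q + 1 : ℕ) : ℝ≥0∞) → m ≤ T)
    (hρ : ρ ≠ ⊤)
    (hC : ∀ F : Finset (Finset (Fin n)), (∀ A ∈ F, A.card ≤ t + 1) → C.Approximates ρ F)
    (hT2 : 2 ≤ T) (hTq : T / 2 < q) (K : ℕ) (hK : 1 ≤ K) :
    (q.choose (T / 2) * K ^ (q - (T - q))) ^ t ≤ C.numAdd * ((K + 2) ^ q) ^ t := by
  classical
  set τ := T / 2 with hτ
  -- monomials of small sets are covers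
  have hcov : ∀ M, C.Produces C.out M → (∀ A ∈ M, A.card ≤ t + 1) → ∀ u, ∃ A ∈ M, u ∈ A := by
    intro M hM hsmall u
    obtain ⟨val, hrun, hlow, _⟩ := hC M.toFinset fun A hA => hsmall A (Multiset.mem_toFinset.1 hA)
    have h1 := hM.finite hrun (fun A hA => by
      simp only [Multiset.mem_toFinset]
      rw [if_pos hA]
      exact ENNReal.one_ne_top)
    obtain ⟨G, hG, hG'⟩ := exists_cover_of_opt (ne_top_of_le_ne_top h1 hlow)
    obtain ⟨A, hA, hu⟩ := hG' u
    exact ⟨A, Multiset.mem_toFinset.1 (hG hA), hu⟩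
  have hprt : ∀ σ : Sg t q, ∀ A ∈ prt e L σ, A.card ≤ t + 1 := by
    intro σ A hA
    unfold prt at hA
    rw [mem_insert, mem_image] at hA
    rcases hA with rfl | ⟨i, _, rfl⟩
    · exact hL
    · exact card_trv_le σ i
  -- the monomial of a partition
  have hmono : ∀ σ : Sg t q, ∃ M, C.Produces C.out M ∧ (∀ A ∈ M, A ∈ prt e L σ) ∧ M.card ≤ T := by
    intro σ
    obtain ⟨val, hrun, _, hup⟩ := hC (prt e L σ) (hprt σ)
    have h1 : opt (prt e L σ) ≤ ((q + 1 : ℕ) : ℝ≥0∞) :=
      (opt_le (h.cover σ)).trans (by exact_mod_cast card_prt_le σ)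
    have h2 := hup.trans (mul_le_mul_right h1 ρ)
    have h3 : ρ * ((q + 1 : ℕ) : ℝ≥0∞) ≠ ⊤ := ENNReal.mul_ne_top hρ (ENNReal.natCast_ne_top _)
    obtain ⟨M, hM, hM'⟩ := attain hrun C.out (ne_top_of_le_ne_top h3 h2)
    have h4 := hM'.trans h2
    have h5 : ∀ A ∈ M, A ∈ prt e L σ := by
      intro A hA
      by_contra hA'
      have h6 : (if A ∈ prt e L σ then (1 : ℝ≥0∞) else ⊤) ≤
          (M.map fun A => if A ∈ prt e L σ then (1 : ℝ≥0∞) else ⊤).sum :=
        Multiset.single_le_sum (fun _ _ => zero_le) _ (Multiset.mem_map_of_mem _ hA)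
      rw [if_neg hA'] at h6
      exact h3 (top_le_iff.1 (h6.trans h4))
    refine ⟨M, hM, h5, hT _ (le_trans (le_of_eq ?_) h4)⟩
    have h7 : M.map (fun A => if A ∈ prt e L σ then (1 : ℝ≥0∞) else ⊤) = M.map fun _ => 1 :=
      Multiset.map_congr rfl fun A hA => if_pos (h5 A hA)
    rw [h7, Multiset.map_const', Multiset.sum_replicate, nsmul_eq_mul, mul_one]
  choose M hM hMG hMT using hmono
  have hMq : ∀ σ, q ≤ (M σ).card := by
    intro σ
    refine le_trans ?_ (Multiset.toFinset_card_le (M σ))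
    have h1 : univ.image (trv e σ) ⊆ (M σ).toFinset := by
      intro A hA
      obtain ⟨i, _, rfl⟩ := mem_image.1 hA
      obtain ⟨A, hA, hu⟩ := hcov (M σ) (hM σ) (fun A hA => hprt σ A (hMG σ A hA)) (e 0 (ext σ 0 i))
      obtain ⟨i', h2, h3⟩ := h.eq_trv (hMG σ A hA) hu
      have h4 : i' = i := (ext σ 0).injective h3
      rw [h4] at h2
      rw [Multiset.mem_toFinset, ← h2]
      exact hA
    have h2 := card_le_card h1
    rwa [card_image_of_injective _ (h.trv_inj σ), card_univ, Fintype.card_fin] at h2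
  have hsplit := fun σ => (hM σ).heavy (τ := τ) (by omega) 0 Ctx.out
    (lt_of_lt_of_le hTq (hMq σ))
  choose v hv M1 M2 R' h1 h2 h3 h4 h5 h6 h7 using hsplit
  have hsum : ∀ σ, (M1 σ).card + (M2 σ).card + (R' σ).card = (M σ).card := by
    intro σ
    have := congrArg Multiset.card (h4 σ)
    rwa [Multiset.card_add, Multiset.card_add, add_zero] at this
  have hmem : ∀ σ, (∀ A ∈ M1 σ, A ∈ M σ) ∧ (∀ A ∈ M2 σ, A ∈ M σ) ∧ (∀ A ∈ R' σ, A ∈ M σ) := by
    intro σ
    have h8 := h4 σ
    rw [add_zero] at h8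
    rw [← h8]
    refine ⟨fun A hA => ?_, fun A hA => ?_, fun A hA => ?_⟩
    · exact Multiset.mem_add.2 (Or.inl (Multiset.mem_add.2 (Or.inl hA)))
    · exact Multiset.mem_add.2 (Or.inl (Multiset.mem_add.2 (Or.inr hA)))
    · exact Multiset.mem_add.2 (Or.inr hA)
  have hcore := h.core (I := {i : Fin C.size // C.isAdd i = true}) (fun σ => ⟨v σ, hv σ⟩)
    (fun σ => ![M1 σ, M2 σ, R' σ]) (τ := τ) (d := T - q) (by
      intro σ c A hA
      fin_cases c
      · exact hMG σ A ((hmem σ).1 A hA)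
      · exact hMG σ A ((hmem σ).2.1 A hA)
      · exact hMG σ A ((hmem σ).2.2 A hA)) (by
      intro σ c
      fin_cases c
      · exact h5 σ
      · exact h6 σ
      · change (R' σ).card ≤ τ
        have e1 := hsum σ
        have e2 := hMT σ
        have e3 := h7 σ
        omega) (by
      intro σ
      change (M1 σ).card + (M2 σ).card + (R' σ).card ≤ q + (T - q)
      have e1 := hsum σ
      have e2 := hMT σ
      omega) (by
      intro s hs u
      have g1 : C.Produces (C.left (v (s 0))) (M1 (s 0)) := h1 (s 0)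
      have g2 : C.Produces (C.right (v (s 0))) (M2 (s 1)) := by
        have e1 := congrArg Subtype.val (hs 0 1)
        change v (s 0) = v (s 1) at e1
        rw [e1]
        exact h2 (s 1)
      have g3 : C.Ctx (Sum.inr (Sum.inr (v (s 0)))) (R' (s 2)) := by
        have e1 := congrArg Subtype.val (hs 0 2)
        change v (s 0) = v (s 2) at e1
        rw [e1]
        exact h3 (s 2)
      have g4 := g3.produces _ (Produces.add (v (s 0)) _ _ (hv (s 0)) g1 g2)
      obtain ⟨A, hA, hu⟩ := hcov _ g4 (by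
        intro A hA
        rw [Multiset.mem_add, Multiset.mem_add] at hA
        rcases hA with (hA | hA) | hA
        · exact hprt _ A (hMG _ A ((hmem _).1 A hA))
        · exact hprt _ A (hMG _ A ((hmem _).2.1 A hA))
        · exact hprt _ A (hMG _ A ((hmem _).2.2 A hA))) u
      rw [Multiset.mem_add, Multiset.mem_add] at hA
      rcases hA with (hA | hA) | hA
      · exact ⟨0, A, hA, hu⟩
      · exact ⟨1, A, hA, hu⟩
      · exact ⟨2, A, hA, hu⟩) hTq.le K hK
  rw [Fintype.card_subtype] at hcore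
  exact hcore

end Pool.Agent.T9h48.SC
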